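import Pool.Agent.X333.MC.Pt

/-!
Pointed maps to projective varieties given by nested sums of few high powers of monomials.
-/

set_option autoImplicit false

open FF MvPolynomial Pool.Agent.TH710.ND Pool.Agent.W602.RG Pool.Agent.W603.LV
  Pool.Agent.W603.PV
open Pool.Agent.W602.GT (val IsForm VarPts PtsU SubVarU IsComponentU ConeU DiagCurve Acts
  IsComponent SubVar GeneralType LogGeneralType OffU Cone)

namespace Pool.Agent.X333.MC

variable {k : Type} [Field k] {n : ℕ} {ι : Type} {K : Type} [Field K] [Algebra k K]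

/-- the two notions for projective varieties -/
theorem pgh_iff {y : Fin (n + 1) → K} : PseudoGeomHyp k y ↔ GeomHypU k ∅ y := by
  constructor
  · rintro ⟨G, hG, hGy, h⟩
    refine ⟨G, hG, hGy, fun L _ _ _ S c _ x hx hxG => (h L c x hx.1 hxG).subset ?_⟩
    rintro φ ⟨f, hf, hm, hv, rfl⟩
    exact ⟨f, hf, hm.2.1, hv, rfl⟩
  · rintro ⟨G, hG, hGy, h⟩
    refine ⟨G, hG, hGy, fun L _ _ _ c x hx hxG => (h L ∅ c (Finset.notMem_empty _) x
      ⟨hx, fun _ hj => absurd hj (Set.notMem_empty _)⟩ hxG).subset ?_⟩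
    rintro φ ⟨f, hf, hm, hv, rfl⟩
    exact ⟨f, hf, ⟨Function.ne_iff.1 hf, hm, fun _ hj => absurd hj (Set.notMem_empty _)⟩, hv, rfl⟩

theorem rat_iff {y : Fin (n + 1) → K} :
    (∃ G : MvPolynomial (Fin (n + 1)) k, IsForm G ∧ val y G ≠ 0 ∧
      ∀ (c : Place k (RatFunc k)), ∀ x ∈ VarPts k y, val x G ≠ 0 → (PointedMaps y c x).Finite) ↔
    GeomHypRat k ∅ y := by
  constructor
  · rintro ⟨G, hG, hGy, h⟩
    refine ⟨G, hG, hGy, fun S c _ x hx hxG => (h c x hx.1 hxG).subset ?_⟩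
    rintro φ ⟨f, hf, hm, hv, rfl⟩
    exact ⟨f, hf, hm.2.1, hv, rfl⟩
  · rintro ⟨G, hG, hGy, h⟩
    refine ⟨G, hG, hGy, fun c x hx hxG => (h ∅ c (Finset.notMem_empty _) x
      ⟨hx, fun _ hj => absurd hj (Set.notMem_empty _)⟩ hxG).subset ?_⟩
    rintro φ ⟨f, hf, hm, hv, rfl⟩
    exact ⟨f, hf, ⟨Function.ne_iff.1 hf, hm, fun _ hj => absurd hj (Set.notMem_empty _)⟩, hv, rfl⟩

theorem subVar_empty {F : ι → MvPolynomial (Fin (n + 1)) k} {w : ℕ} {y : Fin (n + 1) → K}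
    (hy : SubVar F K w y) : SubVarU ∅ F K w y :=
  ⟨hy.ne, fun _ hj => absurd hj (Set.notMem_empty _), hy.mem, hy.gen, hy.dim⟩

theorem comp_empty {F : ι → MvPolynomial (Fin (n + 1)) k} {y : Fin (n + 1) → K}
    (hc : IsComponent F y) : IsComponentU ∅ F y := by
  obtain ⟨H, h1, h2, h3⟩ := hc
  exact ⟨H, h1, h2, fun x hx => h3 x ⟨hx.1, hx.2.2⟩⟩

/-- there are no diagonal one-parameter groups acting nontrivially on the projective variety -/
def NoAction (k : Type) [Field k] [Algebra k K] (y : Fin (n + 1) → K) : Prop :=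
  ∀ b : Fin (n + 1) → ℤ, (∀ t : k, t ≠ 0 → ∀ x ∈ VarPts k y, (fun j => t ^ b j * x j) ∈
    VarPts k y) → ∀ i i', y i ≠ 0 → y i' ≠ 0 → b i = b i'

theorem noAction_iff {y : Fin (n + 1) → K} : NoAction k y ↔ NoActionU k ∅ y := by
  have h1 : ∀ x : Fin (n + 1) → k, x ∈ PtsU ∅ k y ↔ x ∈ VarPts k y := fun x =>
    ⟨fun h => h.1, fun h => ⟨h, fun _ hj => absurd hj (Set.notMem_empty _)⟩⟩
  constructor
  · intro h b hb
    exact h b fun t ht x hx => (h1 _).1 (hb t ht x ((h1 x).2 hx))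
  · intro h b hb
    exact h b fun t ht x hx => (h1 _).2 (hb t ht x ((h1 x).1 hx))

/-- the degree bound by the genus, outside a proper closed subset -/
def GenusBound (k : Type) [Field k] [Algebra k K] (y : Fin (n + 1) → K) : Prop :=
  ∃ G : MvPolynomial (Fin (n + 1)) k, IsForm G ∧ val y G ≠ 0 ∧ ∃ B : ℕ,
    ∀ (L : Type) [Field L] [Algebra k L] [IsFF k L] (f : Fin (n + 1) → L), f ≠ 0 →
      (∀ H : MvPolynomial (Fin (n + 1)) k, IsForm H → val y H = 0 → aeval f H = 0) →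
      aeval f G ≠ 0 → pht k f ≤ B * max (canDeg k L) 0

theorem genusBound_iff {y : Fin (n + 1) → K} :
    GenusBound k y ↔ GenusBoundU (k := k) ∅ y := by
  constructor
  · rintro ⟨G, h1, h2, B, h⟩
    exact ⟨G, h1, h2, B, fun L _ _ _ S f hf hfG => h L f (Function.ne_iff.2 hf.1) hf.2.1 hfG⟩
  · rintro ⟨G, h1, h2, B, h⟩
    exact ⟨G, h1, h2, B, fun L _ _ _ f hf0 hf hfG => h L ∅ f ⟨Function.ne_iff.1 hf0, hf,
      fun _ hj => absurd hj (Set.notMem_empty _)⟩ hfG⟩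

/-- **The equivalences for projective varieties.** -/
theorem proj_tfae [IsAlgClosed k] [CharZero k] [Finite ι]
    {F : ι → MvPolynomial (Fin (n + 1)) k} (hF : ∀ i, MTower (F i)) (hFf : ∀ i, IsForm (F i))
    {w : ℕ} {y : Fin (n + 1) → K} (hy : SubVar F K w y) (hcomp : IsComponent F y) :
    [PseudoGeomHyp k y,
      ∃ G : MvPolynomial (Fin (n + 1)) k, IsForm G ∧ val y G ≠ 0 ∧
        ∀ (c : Place k (RatFunc k)), ∀ x ∈ VarPts k y, val x G ≠ 0 → (PointedMaps y c x).Finite,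
      NoAction k y, GenusBound k y].TFAE := by
  rw [pgh_iff, rat_iff, noAction_iff, genusBound_iff]
  exact pointed_monos hF hFf (subVar_empty hy) (comp_empty hcomp)

theorem pointed_of_gt [IsAlgClosed k] [CharZero k] [Finite ι]
    {F : ι → MvPolynomial (Fin (n + 1)) k} (hF : ∀ i, MTower (F i)) (hFf : ∀ i, IsForm (F i))
    {w : ℕ} {y : Fin (n + 1) → K} (hy : SubVar F K w y) (hcomp : IsComponent F y)
    (h : GeneralType k K w) : PseudoGeomHyp k y := by
  rw [pgh_iff]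
  exact few_of_no hF hFf (subVar_empty hy) (comp_empty hcomp)
    (no_of_lgt hFf (subVar_empty hy) (comp_empty hcomp)
      (Pool.Agent.TH710.NR.log_of_general h _))

theorem gt_of_pointed [IsAlgClosed k] [CharZero k] [Finite ι]
    {F : ι → MvPolynomial (Fin (n + 1)) k} {s N h : ℕ}
    (hF : ∀ e, IsForm (F e) ∧ NestedIn IsMono s N h (F e))
    (hN : (n + 1) * ((h + 1) * (2 * s + 1) ^ 5) ≤ N)
    {w : ℕ} {y : Fin (n + 1) → K} (hy : SubVar F K w y) (hcomp : IsComponent F y)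
    (hP : PseudoGeomHyp k y) : GeneralType k K w := by
  rw [pgh_iff] at hP
  obtain ⟨G, h1, h2, h3⟩ := hP
  exact general_of_no hF (bnd_le hN).1 (subVar_empty hy) (comp_empty hcomp)
    (no_of_rat (subVar_empty hy).unit ⟨G, h1, h2, fun S c => h3 (RatFunc k) S c⟩)

end Pool.Agent.X333.MC
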