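import Pool.Agent.X333.MC.Seq
import Pool.Agent.W602.GT.KAct
import Pool.Agent.X333.NM.Alg
import Pool.Agent.TH710.NR.Fin

/-!
The degrees of curves in varieties given by nested sums of few high powers of monomials: the
equivalences.
-/

set_option autoImplicit false

open FF Filter MvPolynomial Pool.Agent.W603.LV Pool.Agent.W603.PV Pool.Agent.W602.GT
  Pool.Agent.W603.CX Pool.Agent.TH710.NU Pool.Agent.TH710.ND

namespace Pool.Agent.X333.MC

variable {k : Type} [Field k] {n : ℕ} {ι : Type}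

/-- the two notions of orbits -/
theorem orbitsConstant_iff {F : ι → MvPolynomial (Fin (n + 1)) k} :
    OrbitsConstant F ↔ ∀ x b, ¬ DiagCurve ∅ F x b := by
  constructor
  · rintro h x b ⟨h1, i, i', hi, hi', hb⟩
    refine hb (h x b (fun t ht e => ?_) i i' hi hi')
    have h2 := (h1 t ht).2.2 e
    rw [val_eval'] at h2
    rw [← h2]
    congr 2
    funext j
    ring
  · intro h x b h1 j l hj hl
    by_contra hne
    refine h x b ⟨fun t ht => ⟨fun h0 => ?_, fun _ hj => absurd hj (Set.notMem_empty _),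
      fun e => ?_⟩, j, l, hj, hl, hne⟩
    · have h2 := congrFun h0 j
      exact mul_ne_zero (zpow_ne_zero _ ht) hj h2
    · rw [val_eval', ← h1 t ht e]
      congr 2
      funext j
      ring

theorem mem_one {L : Type} [Field L] [Algebra k L] (f : Fin (n + 1) → L) :
    ∃ G ∈ ({1} : Set (MvPolynomial (Fin (n + 1)) k)), aeval f G ≠ 0 :=
  ⟨1, rfl, by rw [map_one]; exact one_ne_zero⟩

/-- **Notions of hyperbolicity.** -/
theorem four_monos [IsAlgClosed k] [CharZero k] {F : ι → MvPolynomial (Fin (n + 1)) k}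
    (hF : ∀ i, MTower (F i)) (hFf : ∀ i, IsForm (F i)) :
    [∃ A : ℕ, AlgHyperbolic A F, BoundedOnCurves F, ∀ P, ¬ GmCurve F P,
      OrbitsConstant F].TFAE := by
  tfae_have 1 → 3 := fun ⟨A, hA⟩ P => no_gm_of_hyp hA P
  tfae_have 3 → 4 := by
    intro h
    rw [orbitsConstant_iff]
    intro x b hd
    obtain ⟨P, hP, -⟩ := gm_of_diag hFf hd
    exact h P hP
  tfae_have 4 → 1 := by
    intro h
    rw [orbitsConstant_iff] at h
    obtain ⟨B, hB⟩ := bound_of_orbits (U := ∅) hF hFf {1} (fun x b hd => absurd hd (h x b))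
    exact ⟨B, fun K _ _ _ f hf0 hf => hB K f hf0 (fun _ hj => absurd hj (Set.notMem_empty _)) hf
      (mem_one f)⟩
  tfae_have 1 → 2 := by
    rintro ⟨A, hA⟩ K _ _ _
    exact ⟨_, fun f hf0 hf => hA K f hf0 hf⟩
  tfae_have 2 → 4 := by
    intro h
    rw [orbitsConstant_iff]
    intro x b hd
    obtain ⟨B, hB⟩ := h (RatFunc k)
    obtain ⟨f, h1, h2, -, -, h3, -⟩ := unbounded_orbit hd B
    exact absurd (hB f h1 h2) (not_le.2 h3)
  tfae_finish

/-- The vector `f` of elements of the function field `L` is the vector of homogeneous coordinates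
of a morphism to `X = {F_i = 0, x_j ≠ 0 for j in U}` from the smooth projective curve with function
field `L`, without the points in the finite set `S`. -/
def IsMapXU (U : Set (Fin (n + 1))) (F : ι → MvPolynomial (Fin (n + 1)) k)
    {L : Type} [Field L] [Algebra k L] (S : Finset (Place k L)) (f : Fin (n + 1) → L) : Prop :=
  (∃ t, f t ≠ 0) ∧ (∀ i, aeval f (F i) = 0) ∧ ∀ j ∈ U, f j ≠ 0 ∧ ∀ P ∉ S, P.ord (f j) = pord P f

/-- The vector `f` of elements of the function field `L` is the vector of homogeneous coordinates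
of a morphism to the part `x_j ≠ 0`, `j ∈ U`, of the closed subvariety with generic point `y` from
the smooth projective curve with function field `L`, without the points in the finite set `S`. -/
def IsMapVU (U : Set (Fin (n + 1))) {K : Type} [Field K] [Algebra k K] (y : Fin (n + 1) → K)
    {L : Type} [Field L] [Algebra k L] (S : Finset (Place k L)) (f : Fin (n + 1) → L) : Prop :=
  (∃ t, f t ≠ 0) ∧
    (∀ G : MvPolynomial (Fin (n + 1)) k, IsForm G → val y G = 0 → aeval f G = 0) ∧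
    ∀ j ∈ U, f j ≠ 0 ∧ ∀ P ∉ S, P.ord (f j) = pord P f

theorem max_mono {L : Type} [Field L] [Algebra k L] [IsAlgClosed k] [CharZero k] [IsFF k L]
    (B : ℕ) (S : Finset (Place k L)) :
    (B : ℤ) * max (canDeg k L) 0 ≤ B * max (canDeg k L + S.card) 0 :=
  mul_le_mul_of_nonneg_left (max_le_max (by
    have : (0 : ℤ) ≤ S.card := by positivity
    linarith) le_rfl) (by positivity)

/-- the coordinates of an orbit have the same order off zero and infinity -/
theorem pord_orbit [IsAlgClosed k] [CharZero k] {x : Fin (n + 1) → k}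
    {f : Fin (n + 1) → RatFunc k}
    (h : ∀ j, x j ≠ 0 → f j ≠ 0 ∧ ∀ P ∉ zeroInf k, P.ord (f j) = 0)
    (h0 : ∀ j, x j = 0 → f j = 0) {j : Fin (n + 1)} (hj : x j ≠ 0)
    (P : Place k (RatFunc k)) (hP : P ∉ zeroInf k) : P.ord (f j) = pord P f := by
  obtain ⟨l, hl, hl2⟩ := exists_pord P (f := f) ⟨j, (h j hj).1⟩
  have hxl : x l ≠ 0 := fun hx => hl (h0 l hx)
  rw [(h j hj).2 P hP, ← hl2, (h l hxl).2 P hP]

/-- **Modulo a closed subset.** -/
theorem mod_monos [IsAlgClosed k] [CharZero k] {U : Set (Fin (n + 1))}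
    {F : ι → MvPolynomial (Fin (n + 1)) k} (hF : ∀ i, MTower (F i)) (hFf : ∀ i, IsForm (F i))
    (A : Set (MvPolynomial (Fin (n + 1)) k)) :
    [∃ B : ℕ, ∀ (L : Type) [Field L] [Algebra k L] [IsFF k L] (S : Finset (Place k L))
        (f : Fin (n + 1) → L), IsMapXU U F S f → (∃ G ∈ A, aeval f G ≠ 0) →
          pht k f ≤ B * max (canDeg k L) 0,
      ∃ B : ℕ, ∀ (L : Type) [Field L] [Algebra k L] [IsFF k L] (S : Finset (Place k L))
        (f : Fin (n + 1) → L), IsMapXU U F S f → (∃ G ∈ A, aeval f G ≠ 0) →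
          pht k f ≤ B * max (canDeg k L + S.card) 0,
      ∃ β : ℤ → ℤ, ∀ (L : Type) [Field L] [Algebra k L] [IsFF k L] (S : Finset (Place k L))
        (f : Fin (n + 1) → L), IsMapXU U F S f → (∃ G ∈ A, aeval f G ≠ 0) →
          pht k f ≤ β (canDeg k L + S.card),
      ∀ (L : Type) [Field L] [Algebra k L] [IsFF k L] (S : Finset (Place k L)), ∃ B : ℤ,
        ∀ f : Fin (n + 1) → L, IsMapXU U F S f → (∃ G ∈ A, aeval f G ≠ 0) → pht k f ≤ B,
      ∃ B : ℤ, ∀ f : Fin (n + 1) → RatFunc k, IsMapXU U F (zeroInf k) f →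
        (∃ G ∈ A, aeval f G ≠ 0) → pht k f ≤ B,
      ∀ x b, DiagCurve U F x b → ∀ G ∈ A, val x G = 0].TFAE := by
  tfae_have 1 → 2 := fun ⟨B, h⟩ => ⟨B, fun L _ _ _ S f hf hG =>
    (h L S f hf hG).trans (max_mono B S)⟩
  tfae_have 2 → 3 := fun ⟨B, h⟩ => ⟨fun m => B * max m 0,
    fun L _ _ _ S f hf hG => h L S f hf hG⟩
  tfae_have 3 → 4 := fun ⟨β, h⟩ L _ _ _ S => ⟨_, fun f hf hG => h L S f hf hG⟩
  tfae_have 4 → 5 := fun h => h (RatFunc k) (zeroInf k)
  tfae_have 5 → 6 := by
    rintro ⟨B, hB⟩ x b hx G hG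
    by_contra hne
    have hU : ∀ j ∈ U, x j ≠ 0 := by
      intro j hj h0
      apply (hx.1 1 one_ne_zero).2.1 j hj
      change (1 : k) ^ b j * x j = 0
      rw [h0, mul_zero]
    obtain ⟨f, h1, h2, h3, h4, h5, h6⟩ := unbounded_orbit hx B
    refine absurd (hB f ⟨h1, h2, fun j hj => ⟨(h3 j (hU j hj)).1, fun P hP => ?_⟩⟩
      ⟨G, hG, h6 G hne⟩) (not_le.2 h5)
    exact pord_orbit h3 h4 (hU j hj) P hP
  tfae_have 6 → 1 := by
    intro h
    obtain ⟨B, hB⟩ := bound_of_orbits hF hFf A h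
    exact ⟨B, fun L _ _ _ S f hf hG => hB L f hf.1 (fun j hj => (hf.2.2 j hj).1) hf.2.1 hG⟩
  tfae_finish

section comp

variable {K : Type} [Field K] [Algebra k K]

/-- the degree bound by the genus for the curves in the part `x_j ≠ 0`, `j ∈ U`, of the closed
subvariety with generic point `y`, outside a proper closed subset -/
def GenusBoundU (U : Set (Fin (n + 1))) (y : Fin (n + 1) → K) : Prop :=
  ∃ G : MvPolynomial (Fin (n + 1)) k, IsForm G ∧ val y G ≠ 0 ∧ ∃ B : ℕ,
    ∀ (L : Type) [Field L] [Algebra k L] [IsFF k L] (S : Finset (Place k L))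
      (f : Fin (n + 1) → L), IsMapVU (k := k) U y S f → aeval f G ≠ 0 →
        pht k f ≤ B * max (canDeg k L) 0

/-- the linear degree bound for the curves in the part `x_j ≠ 0`, `j ∈ U`, of the closed subvariety
with generic point `y`, outside a proper closed subset -/
def LinBoundU (U : Set (Fin (n + 1))) (y : Fin (n + 1) → K) : Prop :=
  ∃ G : MvPolynomial (Fin (n + 1)) k, IsForm G ∧ val y G ≠ 0 ∧ ∃ B : ℕ,
    ∀ (L : Type) [Field L] [Algebra k L] [IsFF k L] (S : Finset (Place k L))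
      (f : Fin (n + 1) → L), IsMapVU (k := k) U y S f → aeval f G ≠ 0 →
        pht k f ≤ B * max (canDeg k L + S.card) 0

/-- the degrees of the curves in the part `x_j ≠ 0`, `j ∈ U`, of the closed subvariety with generic
point `y`, outside a proper closed subset, are bounded by a function of the Euler characteristic -/
def EulerBoundU (U : Set (Fin (n + 1))) (y : Fin (n + 1) → K) : Prop :=
  ∃ G : MvPolynomial (Fin (n + 1)) k, IsForm G ∧ val y G ≠ 0 ∧ ∃ β : ℤ → ℤ,
    ∀ (L : Type) [Field L] [Algebra k L] [IsFF k L] (S : Finset (Place k L))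
      (f : Fin (n + 1) → L), IsMapVU (k := k) U y S f → aeval f G ≠ 0 →
        pht k f ≤ β (canDeg k L + S.card)

/-- the degrees of the maps from each curve to the part `x_j ≠ 0`, `j ∈ U`, of the closed subvariety
with generic point `y`, outside a proper closed subset, are bounded -/
def EachBoundU (U : Set (Fin (n + 1))) (y : Fin (n + 1) → K) : Prop :=
  ∃ G : MvPolynomial (Fin (n + 1)) k, IsForm G ∧ val y G ≠ 0 ∧
    ∀ (L : Type) [Field L] [Algebra k L] [IsFF k L] (S : Finset (Place k L)), ∃ B : ℤ,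
      ∀ f : Fin (n + 1) → L, IsMapVU (k := k) U y S f → aeval f G ≠ 0 → pht k f ≤ B

/-- the degrees of the maps from the multiplicative group to the part `x_j ≠ 0`, `j ∈ U`, of the
closed subvariety with generic point `y`, outside a proper closed subset, are bounded -/
def GmBoundU [CharZero k] (U : Set (Fin (n + 1))) (y : Fin (n + 1) → K) : Prop :=
  ∃ G : MvPolynomial (Fin (n + 1)) k, IsForm G ∧ val y G ≠ 0 ∧ ∃ B : ℤ,
    ∀ f : Fin (n + 1) → RatFunc k, IsMapVU (k := k) U y (zeroInf k) f → aeval f G ≠ 0 →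
      pht k f ≤ B

variable (k) in
/-- Every one-parameter group of diagonal matrices which maps the part `x_j ≠ 0`, `j ∈ U`, of the
closed subvariety with generic point `y` to itself fixes all points of it. -/
def NoActionU (U : Set (Fin (n + 1))) (y : Fin (n + 1) → K) : Prop :=
  ∀ b : Fin (n + 1) → ℤ, Acts U k y b → ∀ i i', y i ≠ 0 → y i' ≠ 0 → b i = b i'

theorem genus_of_no [IsAlgClosed k] [CharZero k] [Finite ι] {U : Set (Fin (n + 1))}
    {F : ι → MvPolynomial (Fin (n + 1)) k} (hF : ∀ i, MTower (F i)) (hFf : ∀ i, IsForm (F i))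
    {w : ℕ} {y : Fin (n + 1) → K} (hy : SubVarU U F K w y) (hcomp : IsComponentU U F y)
    (hno : ∀ b : Fin (n + 1) → ℤ, (∀ e v, val y (wc b v (F e)) = 0) →
      ∀ i i', y i ≠ 0 → y i' ≠ 0 → b i = b i') : GenusBoundU (k := k) U y := by
  classical
  have := Fintype.ofFinite ι
  obtain ⟨H, hH, hHy, hcone⟩ := hcomp
  -- the finitely many forms which occur
  let T : ι → Finset (MvPolynomial (Fin (n + 1)) k) := fun e =>
    (F e).support.powerset.image fun s => ∑ α ∈ s, MvPolynomial.monomial α ((F e).coeff α)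
  have hT : ∀ e b v, wc b v (F e) ∈ T e := by
    intro e b v
    refine Finset.mem_image.2 ⟨(F e).support.filter fun α => ∑ j, (α j : ℤ) * b j = v, ?_, rfl⟩
    exact Finset.mem_powerset.2 (Finset.filter_subset _ _)
  let T1 : Finset (MvPolynomial (Fin (n + 1)) k) :=
    (Finset.univ.biUnion T).filter fun p => IsForm p ∧ val y p ≠ 0
  obtain ⟨G0, hG0⟩ : ∃ G0 : MvPolynomial (Fin (n + 1)) k, G0 = ∏ p ∈ T1, p := ⟨_, rfl⟩
  have hval : ∀ {M : Type} [Field M] [Algebra k M] (z : Fin (n + 1) → M),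
      val z G0 = ∏ p ∈ T1, val z p := by
    intro M _ _ z
    rw [hG0]
    unfold Pool.Agent.W602.GT.val
    rw [map_prod]
  have hG0y : val y G0 ≠ 0 := by
    rw [hval]
    exact Finset.prod_ne_zero_iff.2 fun p hp => (Finset.mem_filter.1 hp).2.2
  have hG0f : IsForm G0 := by
    rw [hG0]
    refine ⟨∑ p ∈ T1.attach, ((Finset.mem_filter.1 p.2).2.1).choose, ?_⟩
    rw [← Finset.prod_attach]
    exact IsHomogeneous.prod _ _ _ fun p _ => ((Finset.mem_filter.1 p.2).2.1).choose_spec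
  have horb : ∀ x b, DiagCurve U F x b → ∀ G ∈ ({G0 * H} : Set _), val x G = 0 := by
    rintro x b ⟨hd, i, i', hi, hi', hbi⟩ G rfl
    by_contra hne
    rw [val_mul] at hne
    have hx1 := left_ne_zero_of_mul hne
    have hx2 := right_ne_zero_of_mul hne
    have hxc : x ∈ ConeU U F := by
      have h1 := hd 1 one_ne_zero
      simpa using h1
    have hxV := hcone x hxc hx2
    have hwc : ∀ e v, val x (wc b v (F e)) = 0 := fun e v =>
      wc_of_orbit (fun t ht => (hd t ht).2.2 e) v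
    have hyw : ∀ e v, val y (wc b v (F e)) = 0 := by
      intro e v
      by_contra h0
      rw [hval] at hx1
      have h1 : wc b v (F e) ∈ T1 := Finset.mem_filter.2
        ⟨Finset.mem_biUnion.2 ⟨e, Finset.mem_univ _, hT e b v⟩, wc_form (hFf e) b v, h0⟩
      exact Finset.prod_ne_zero_iff.1 hx1 _ h1 (hwc e v)
    have hsup : ∀ j, x j ≠ 0 → y j ≠ 0 := by
      intro j hj h0
      apply hj
      have h1 := hxV.2 (MvPolynomial.X j) ⟨1, MvPolynomial.isHomogeneous_X _ _⟩ (by
        unfold Pool.Agent.W602.GT.val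
        rw [MvPolynomial.aeval_X]
        exact h0)
      unfold Pool.Agent.W602.GT.val at h1
      rwa [MvPolynomial.aeval_X] at h1
    exact hbi (hno b hyw i i' (hsup i hi) (hsup i' hi'))
  obtain ⟨B, hB⟩ := bound_of_orbits hF hFf {G0 * H} horb
  refine ⟨G0 * H, ?_, ?_, B, fun L _ _ _ S f hf hfG => ?_⟩
  · obtain ⟨a, ha⟩ := hG0f
    obtain ⟨c, hc⟩ := hH
    exact ⟨a + c, ha.mul hc⟩
  · rw [val_mul]
    exact mul_ne_zero hG0y hHy
  · exact hB L f hf.1 (fun j hj => (hf.2.2 j hj).1) (fun e => hf.2.1 _ (hFf e) (hy.mem e))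
      ⟨_, rfl, hfG⟩

/-- an action on the component -/
theorem wc_of_acts [IsAlgClosed k] {U : Set (Fin (n + 1))}
    {F : ι → MvPolynomial (Fin (n + 1)) k} (hFf : ∀ i, IsForm (F i)) {w : ℕ}
    {y : Fin (n + 1) → K} (hy : SubVarU U F K w y) {b : Fin (n + 1) → ℤ} (hb : Acts U k y b)
    (e : ι) (v : ℤ) : val y (wc b v (F e)) = 0 := by
  classical
  have hinf : Infinite k := inferInstance
  by_contra hne
  obtain ⟨i, hi⟩ := Function.ne_iff.1 hy.ne
  obtain ⟨x, hx1, hx2⟩ := specialise y (wc b v (F e) * MvPolynomial.X i *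
    ∏ j ∈ Finset.univ.filter (fun j => j ∈ U), MvPolynomial.X j) (by
      rw [map_mul, map_mul, map_prod]
      simp only [MvPolynomial.aeval_X]
      exact mul_ne_zero (mul_ne_zero hne hi) (Finset.prod_ne_zero_iff.2 fun j hj =>
        hy.unit j (Finset.mem_filter.1 hj).2))
  rw [map_mul, map_mul, map_prod] at hx1
  simp only [MvPolynomial.aeval_X] at hx1
  have h1 := left_ne_zero_of_mul (left_ne_zero_of_mul hx1)
  have h2 := right_ne_zero_of_mul hx1
  have h3 := right_ne_zero_of_mul (left_ne_zero_of_mul hx1)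
  have hxP : x ∈ PtsU U k y := ⟨⟨fun h0 => h3 (congrFun h0 i), fun G _ hG => hx2 G hG⟩,
    fun j hj => Finset.prod_ne_zero_iff.1 h2 j (Finset.mem_filter.2 ⟨Finset.mem_univ _, hj⟩)⟩
  apply h1
  exact wc_of_orbit (fun t ht => (hb t ht x hxP).1.2 (F e) (hFf e) (hy.mem e)) v

/-- an action on the component -/
theorem acts_of_wc [IsAlgClosed k] {U : Set (Fin (n + 1))}
    {F : ι → MvPolynomial (Fin (n + 1)) k} {w : ℕ}
    {y : Fin (n + 1) → K} (hy : SubVarU U F K w y) (hcomp : IsComponentU U F y)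
    {b : Fin (n + 1) → ℤ} (hb : ∀ e v, val y (wc b v (F e)) = 0) : Acts U k y b := by
  rintro t ht x ⟨⟨hx0, hxV⟩, hxU⟩
  refine ⟨⟨?_, fun G hG h0 => ?_⟩, fun j hj => mul_ne_zero (zpow_ne_zero _ ht) (hxU j hj)⟩
  · obtain ⟨i, hi⟩ := Function.ne_iff.1 hx0
    intro h0
    exact mul_ne_zero (zpow_ne_zero _ ht) hi (congrFun h0 i)
  · exact val_orbit (L := k) x b ht G fun v =>
      hxV _ (wc_form hG b v) (ideal_hom hy hcomp hb G hG h0 v)

/-- **No bound for the maps from the multiplicative group along an action.** -/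
theorem no_of_gm [IsAlgClosed k] [CharZero k] {U : Set (Fin (n + 1))}
    {F : ι → MvPolynomial (Fin (n + 1)) k} {w : ℕ} {y : Fin (n + 1) → K}
    (hy : SubVarU U F K w y) (hcomp : IsComponentU U F y) (hB : GmBoundU (k := k) U y)
    {b : Fin (n + 1) → ℤ} (hb : ∀ e v, val y (wc b v (F e)) = 0) {i i' : Fin (n + 1)}
    (hi : y i ≠ 0) (hi' : y i' ≠ 0) : b i = b i' := by
  classical
  by_contra hbi
  obtain ⟨G, hG, hGy, B, hB⟩ := hB
  have hinf : Infinite k := inferInstance
  obtain ⟨x, hx, hxG, hxy⟩ := diag_spec (U := U) hy.unit hi hi' hbi hb hGy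
  have hxU : ∀ j ∈ U, x j ≠ 0 := by
    intro j hj h0
    apply (hx.1 1 one_ne_zero).2.1 j hj
    change (1 : k) ^ b j * x j = 0
    rw [h0, mul_zero]
  have hxP : x ∈ PtsU U k y := by
    refine ⟨⟨fun h0 => ?_, fun G _ h0 => hxy G h0⟩, hxU⟩
    obtain ⟨i1, -, hi1, -⟩ := hx.2
    exact hi1 (congrFun h0 i1)
  have hact := acts_of_wc hy hcomp hb
  -- the orbit lies in the component
  let F' : {G : MvPolynomial (Fin (n + 1)) k // IsForm G ∧ val y G = 0} →
    MvPolynomial (Fin (n + 1)) k := fun G => G.1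
  have hx' : DiagCurve U F' x b := by
    refine ⟨fun t ht => ?_, hx.2⟩
    obtain ⟨⟨h1, h2⟩, h3⟩ := hact t ht x hxP
    exact ⟨h1, h3, fun G => h2 G.1 G.2.1 G.2.2⟩
  obtain ⟨f, h1, h2, h3, h4, h5, h6⟩ := unbounded_orbit hx' B
  exact absurd (hB f ⟨h1, fun G' hG' h0 => h2 ⟨G', hG', h0⟩, fun j hj => ⟨(h3 j (hxU j hj)).1,
    fun P hP => pord_orbit h3 h4 (hxU j hj) P hP⟩⟩ (h6 G hxG)) (not_le.2 h5)

/-- **The degree bounds for a component.** -/
theorem comp_monos [IsAlgClosed k] [CharZero k] [Finite ι] {U : Set (Fin (n + 1))}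
    {F : ι → MvPolynomial (Fin (n + 1)) k} (hF : ∀ i, MTower (F i)) (hFf : ∀ i, IsForm (F i))
    {w : ℕ} {y : Fin (n + 1) → K} (hy : SubVarU U F K w y) (hcomp : IsComponentU U F y) :
    [GenusBoundU (k := k) U y, LinBoundU (k := k) U y, EulerBoundU (k := k) U y,
      EachBoundU (k := k) U y, GmBoundU (k := k) U y, NoActionU k U y].TFAE := by
  tfae_have 1 → 2 := fun ⟨G, h1, h2, B, h⟩ => ⟨G, h1, h2, B, fun L _ _ _ S f hf hG =>
    (h L S f hf hG).trans (max_mono B S)⟩
  tfae_have 2 → 3 := fun ⟨G, h1, h2, B, h⟩ => ⟨G, h1, h2, fun m => B * max m 0,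
    fun L _ _ _ S f hf hG => h L S f hf hG⟩
  tfae_have 3 → 4 := fun ⟨G, h1, h2, β, h⟩ => ⟨G, h1, h2,
    fun L _ _ _ S => ⟨_, fun f hf hG => h L S f hf hG⟩⟩
  tfae_have 4 → 5 := fun ⟨G, h1, h2, h⟩ => ⟨G, h1, h2, h (RatFunc k) (zeroInf k)⟩
  tfae_have 5 → 6 := fun h b hb i i' hi hi' =>
    no_of_gm hy hcomp h (wc_of_acts hFf hy hb) hi hi'
  tfae_have 6 → 1 := fun h => genus_of_no hF hFf hy hcomp fun b hb i i' hi hi' =>
    h b (acts_of_wc hy hcomp hb) i i' hi hi'
  tfae_finish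

/-- **Log general type implies that there are no actions.** -/
theorem no_of_lgt [IsAlgClosed k] [CharZero k] {U : Set (Fin (n + 1))}
    {F : ι → MvPolynomial (Fin (n + 1)) k} (hFf : ∀ i, IsForm (F i))
    {w : ℕ} {y : Fin (n + 1) → K} (hy : SubVarU U F K w y) (hcomp : IsComponentU U F y)
    (h : LogGeneralType k K w (OffU U y)) : NoActionU k U y := by
  intro b hb i i' hi hi'
  by_contra hne
  exact orb_not_gt hy.gen b hi hi' hne hy.unit
    (ideal_hom hy hcomp (wc_of_acts hFf hy hb)) h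

/-- **General type.** -/
theorem general_of_no [IsAlgClosed k] [CharZero k] {U : Set (Fin (n + 1))}
    {F : ι → MvPolynomial (Fin (n + 1)) k} {s N h : ℕ}
    (hF : ∀ e, IsForm (F e) ∧ NestedIn IsMono s N h (F e)) (hN : bnd n s h ≤ N)
    {w : ℕ} {y : Fin (n + 1) → K} (hy : SubVarU U F K w y) (hcomp : IsComponentU U F y)
    (hno : NoActionU k U y) : GeneralType k K w := by
  by_contra hgt
  have halg : Algebra.IsAlgebraic (coords k y) K := by
    rw [hy.gen]
    infer_instance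
  obtain ⟨b, i, i', hi, hi', hb, hwc⟩ := sparse_n (fun e => (hF e).2) hN hy.ne halg hy.dim hy.mem
    (not_log hgt)
  exact hb (hno b (acts_of_wc hy hcomp hwc) i i' hi hi')

/-- **The equivalences with log general type.** -/
theorem comp_lgt [IsAlgClosed k] [CharZero k] [Finite ι] {U : Set (Fin (n + 1))}
    {F : ι → MvPolynomial (Fin (n + 1)) k} {s N h : ℕ}
    (hF : ∀ e, IsForm (F e) ∧ NestedIn IsMono s N h (F e))
    (hN : (n + 1) * ((h + 1) * (2 * s + 1) ^ 5) ≤ N)
    {w : ℕ} {y : Fin (n + 1) → K} (hy : SubVarU U F K w y) (hcomp : IsComponentU U F y) :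
    [LogGeneralType k K w (OffU U y), GeneralType k K w,
      GenusBoundU (k := k) U y, LinBoundU (k := k) U y, EulerBoundU (k := k) U y,
      EachBoundU (k := k) U y, GmBoundU (k := k) U y, NoActionU k U y].TFAE := by
  obtain ⟨hNb, hN2, hN1⟩ := bnd_le hN
  have h1 := comp_monos (fun e => MTower.of_nested hN2 hN1 (hF e).2) (fun e => (hF e).1) hy hcomp
  tfae_have 3 ↔ 4 := h1.out 0 1
  tfae_have 3 ↔ 5 := h1.out 0 2
  tfae_have 3 ↔ 6 := h1.out 0 3
  tfae_have 3 ↔ 7 := h1.out 0 4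
  tfae_have 3 ↔ 8 := h1.out 0 5
  tfae_have 1 → 8 := no_of_lgt (fun e => (hF e).1) hy hcomp
  tfae_have 8 → 2 := general_of_no hF hNb hy hcomp
  tfae_have 2 → 1 := fun h => Pool.Agent.TH710.NR.log_of_general h _
  tfae_finish

end comp



end Pool.Agent.X333.MC
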