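import Pool.Agent.X333.MC.Core
import Pool.Agent.TH710.NU.Affine
import Pool.Agent.TH710.NU.Four

/-!
The degrees of curves in varieties given by nested sums of few high powers of monomials.
-/

set_option autoImplicit false

open FF Filter MvPolynomial Pool.Agent.W603.LV Pool.Agent.W603.PV Pool.Agent.W602.GT
  Pool.Agent.W603.GY Pool.Agent.W603.GX Pool.Agent.W603.GW Pool.Agent.W603.GR
  Pool.Agent.W603.CZ Pool.Agent.TH710.NU Pool.Agent.TH710.ND

namespace Pool.Agent.X333.MC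

variable {k : Type} [Field k] {n : ℕ} {ι : Type}

/-- **One-parameter groups.** A sequence of maps of large degree gives a one-parameter group. -/
theorem orbit_seq [IsAlgClosed k] [CharZero k] {F : ι → MvPolynomial (Fin (n + 1)) k}
    (hF : ∀ e, MTower (F e)) (hFf : ∀ e, IsForm (F e)) (L : ℕ → Type) [∀ i, Field (L i)]
    [∀ i, Algebra k (L i)] [∀ i, IsFF k (L i)] (f : ∀ i, Fin (n + 1) → L i)
    (hf0 : ∀ i, ∃ t, f i t ≠ 0) (hfF : ∀ i e, aeval (f i) (F e) = 0)
    (hht : ∀ i : ℕ, (i : ℤ) * max (canDeg k (L i)) 0 < pht k (f i)) :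
    ∃ (b : Fin (n + 1) → ℤ) (i i' : Fin (n + 1)),
      um (hyperfilter ℕ) (fun l => f l i) ≠ 0 ∧ um (hyperfilter ℕ) (fun l => f l i') ≠ 0 ∧
      b i ≠ b i' ∧
      ∀ e v, val (fun t => um (hyperfilter ℕ) (fun i => f i t)) (wc b v (F e)) = 0 := by
  classical
  obtain ⟨χ, hχd⟩ : ∃ χ : ℕ → ℤ, χ = fun i => max (canDeg k (L i)) 0 := ⟨_, rfl⟩
  have hχ : ∀ i, 0 ≤ χ i := fun i => by rw [hχd]; exact le_max_right _ _
  have hS : ∀ᶠ i in (hyperfilter ℕ : Filter ℕ),
      max (canDeg k (L i) + ((∅ : Finset (Place k (L i))).card : ℤ)) 0 ≤ (1 : ℕ) * χ i :=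
    Eventually.of_forall fun i => by
      rw [hχd, Nat.cast_one, one_mul, Finset.card_empty, Nat.cast_zero, add_zero]
  have hFc : ∀ c : k, ∃ B : ℕ, ∀ i, hgt k (algebraMap k (L i) c) ≤ B * χ i := by
    intro c
    refine ⟨0, fun i => ?_⟩
    rw [Nat.cast_zero, zero_mul, hgt_alg]
  obtain ⟨E, hE⟩ : ∃ E : IntermediateField k (UL (hyperfilter ℕ) L),
      IsSmall (hyperfilter ℕ) k χ E :=
    ⟨small (hyperfilter ℕ) χ hχ hFc, hχ, fun a => mem_small (hyperfilter ℕ)⟩
  have hval : ∀ H : MvPolynomial (Fin (n + 1)) k, um (hyperfilter ℕ) (fun i => val (f i) H) =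
      val (fun t => um (hyperfilter ℕ) (fun i => f i t)) H :=
    fun H => um_val H fun t i => f i t
  have hFy : ∀ e, val (fun t => um (hyperfilter ℕ) (fun i => f i t)) (F e) = 0 := by
    intro e
    rw [← hval, um_zero_iff]
    exact Eventually.of_forall fun i => hfF i e
  obtain ⟨t0, ht0⟩ : ∃ t, um (hyperfilter ℕ) (fun i => f i t) ≠ 0 := by
    by_contra hcon
    push Not at hcon
    have h1 : ∀ t, ∀ᶠ i in (hyperfilter ℕ : Filter ℕ), f i t = 0 := fun t =>
      um_zero_iff.1 (hcon t)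
    obtain ⟨i, hi⟩ := (eventually_all.2 h1).exists
    obtain ⟨t, ht⟩ := hf0 i
    exact ht (hi t)
  obtain ⟨t, ht⟩ : ∃ t, um (hyperfilter ℕ) (fun i => f i t) /
      um (hyperfilter ℕ) (fun i => f i t0) ∉ E := by
    by_contra hcon
    push Not at hcon
    have h1 : ∀ t, ∃ B : ℕ, ∀ᶠ i in (hyperfilter ℕ : Filter ℕ),
        hgt k (f i t / f i t0) ≤ B * χ i := by
      intro t
      have h2 := hcon t
      rw [← um_div] at h2
      exact (hE.2 _).1 h2
    choose B hB using h1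
    have h2 : ∀ᶠ i in (hyperfilter ℕ : Filter ℕ), f i t0 ≠ 0 := um_ne_iff.1 ht0
    have h3 : ∀ᶠ i in (hyperfilter ℕ : Filter ℕ), ∑ t, B t ≤ i :=
      Nat.hyperfilter_le_atTop (eventually_ge_atTop _)
    obtain ⟨i, ⟨hi1, hi2⟩, hi3⟩ := (((eventually_all.2 hB).and h2).and h3).exists
    have h4 := pht_le (k := k) (f i) hi2
    have h5 : ∑ j, hgt k (f i j / f i t0) ≤ ∑ j, (B j : ℤ) * χ i :=
      Finset.sum_le_sum fun j _ => hi1 j
    rw [← Finset.sum_mul] at h5
    have h6 : ((∑ t, B t : ℕ) : ℤ) ≤ i := by exact_mod_cast hi3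
    push_cast at h6
    have h7 := mul_le_mul_of_nonneg_right h6 (hχ i)
    have h8 := hht i
    have h9 : χ i = max (canDeg k (L i)) 0 := by rw [hχd]
    rw [← h9] at h8
    linarith
  have htn : um (hyperfilter ℕ) (fun i => f i t) ≠ 0 := by
    intro h0
    apply ht
    rw [h0, zero_div]
    exact zero_mem _
  have hK : Infinite (UL (hyperfilter ℕ) L) := by
    have h1 : CharZero (UL (hyperfilter ℕ) L) :=
      charZero_of_injective_algebraMap (algebraMap k (UL (hyperfilter ℕ) L)).injective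
    infer_instance
  obtain ⟨b, hb, hbv⟩ := orbit_of_dsys (dsys (fun i => (∅ : Finset (Place k (L i)))) hE hS) hF hFf
    (y := fun t => um (hyperfilter ℕ) (fun i => f i t)) hFy htn ht0 ht
  exact ⟨b, t, t0, htn, ht0, hb, hbv⟩

/-- specialisation of a one-parameter group -/
theorem diag_spec [IsAlgClosed k] {K : Type} [Field K] [Algebra k K] {U : Set (Fin (n + 1))}
    {F : ι → MvPolynomial (Fin (n + 1)) k} {y : Fin (n + 1) → K} (hU : ∀ j ∈ U, y j ≠ 0)
    {b : Fin (n + 1) → ℤ} {i i' : Fin (n + 1)} (hi : y i ≠ 0) (hi' : y i' ≠ 0) (hb : b i ≠ b i')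
    (hwc : ∀ e v, val y (wc b v (F e)) = 0) {G : MvPolynomial (Fin (n + 1)) k}
    (hG : val y G ≠ 0) : ∃ x, DiagCurve U F x b ∧ val x G ≠ 0 ∧
      ∀ p : MvPolynomial (Fin (n + 1)) k, val y p = 0 → val x p = 0 := by
  classical
  let H : MvPolynomial (Fin (n + 1)) k := G * (MvPolynomial.X i * MvPolynomial.X i') *
    ∏ j ∈ Finset.univ.filter (fun j => j ∈ U), MvPolynomial.X j
  have hH : MvPolynomial.aeval y H ≠ 0 := by
    simp only [H, map_mul, map_prod, MvPolynomial.aeval_X]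
    refine mul_ne_zero (mul_ne_zero hG (mul_ne_zero hi hi')) ?_
    exact Finset.prod_ne_zero_iff.2 fun j hj => hU j (Finset.mem_filter.1 hj).2
  obtain ⟨x, hx, hx0⟩ := specialise y H hH
  simp only [H, map_mul, map_prod, MvPolynomial.aeval_X] at hx
  have h1 := left_ne_zero_of_mul hx
  have h2 := right_ne_zero_of_mul hx
  have h3 := right_ne_zero_of_mul h1
  refine ⟨x, diag_of_wc (fun j hj => ?_) (fun e v => hx0 _ (hwc e v))
    ⟨i, i', left_ne_zero_of_mul h3, right_ne_zero_of_mul h3, hb⟩, left_ne_zero_of_mul h1,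
    fun p hp => hx0 p hp⟩
  exact Finset.prod_ne_zero_iff.1 h2 j (Finset.mem_filter.2 ⟨Finset.mem_univ _, hj⟩)

/-- **The degree bound** outside a set of points that contains the orbits. -/
theorem bound_of_orbits [IsAlgClosed k] [CharZero k] {U : Set (Fin (n + 1))}
    {F : ι → MvPolynomial (Fin (n + 1)) k} (hF : ∀ e, MTower (F e)) (hFf : ∀ e, IsForm (F e))
    (A : Set (MvPolynomial (Fin (n + 1)) k))
    (hA : ∀ x b, DiagCurve U F x b → ∀ G ∈ A, val x G = 0) :
    ∃ B : ℕ, ∀ (L : Type) [Field L] [Algebra k L] [IsFF k L] (f : Fin (n + 1) → L),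
      (∃ t, f t ≠ 0) → (∀ j ∈ U, f j ≠ 0) → (∀ e, aeval f (F e) = 0) →
      (∃ G ∈ A, aeval f G ≠ 0) → pht k f ≤ B * max (canDeg k L) 0 := by
  classical
  by_contra hcon
  push Not at hcon
  choose L i1 i2 i3 f hf0 hfU hfF hG hht using hcon
  choose G hG1 hG3 using hG
  obtain ⟨b, i, i', hi, hi', hb, hwc⟩ := orbit_seq hF hFf L f hf0 hfF hht
  obtain ⟨s, hsA, hs⟩ := (Submodule.fg_span_iff_fg_span_finset_subset A).1
    (IsNoetherian.noetherian (Ideal.span A))
  have h1 : ∀ i, ∃ H ∈ s, aeval (f i) H ≠ 0 := by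
    intro i
    by_contra hno
    push Not at hno
    apply hG3 i
    have h2 : G i ∈ Ideal.span A := Ideal.subset_span (hG1 i)
    have h3 : Ideal.span A ≤ RingHom.ker (aeval (f i) :
        MvPolynomial (Fin (n + 1)) k →ₐ[k] L i) := by
      rw [show Ideal.span A = Ideal.span (s : Set (MvPolynomial (Fin (n + 1)) k)) from hs,
        Ideal.span_le]
      intro H hH
      exact RingHom.mem_ker.2 (hno H hH)
    exact RingHom.mem_ker.1 (h3 h2)
  have h4 : ∃ H ∈ s, val (fun t => um (hyperfilter ℕ) (fun i => f i t)) H ≠ 0 := by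
    by_contra hno
    push Not at hno
    have h5 : ∀ᶠ i in (hyperfilter ℕ : Filter ℕ), ∀ H ∈ s, aeval (f i) H = 0 := by
      rw [eventually_all_finset]
      intro H hH
      have h6 := hno H hH
      have h7 := um_val (𝒰 := hyperfilter ℕ) H fun t i => f i t
      rw [← h7, um_zero_iff] at h6
      exact h6
    obtain ⟨i, hi⟩ := h5.exists
    obtain ⟨H, hH, hne⟩ := h1 i
    exact hne (hi H hH)
  obtain ⟨H, hH, hne⟩ := h4
  have hUy : ∀ j ∈ U, um (hyperfilter ℕ) (fun l => f l j) ≠ 0 := fun j hj =>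
    um_ne_iff.2 (Eventually.of_forall fun l => hfU l j hj)
  obtain ⟨x, hx1, hx2, -⟩ := diag_spec (U := U)
    (y := fun t => um (hyperfilter ℕ) (fun i => f i t)) hUy hi hi' hb hwc hne
  exact hx2 (hA x b hx1 H (hsA hH))

/-- **Orbits have unbounded degrees.** -/
theorem unbounded_orbit [IsAlgClosed k] [CharZero k] {U : Set (Fin (n + 1))}
    {F : ι → MvPolynomial (Fin (n + 1)) k} {x : Fin (n + 1) → k} {b : Fin (n + 1) → ℤ}
    (hx : DiagCurve U F x b) (B : ℤ) :
    ∃ f : Fin (n + 1) → RatFunc k, (∃ t, f t ≠ 0) ∧ (∀ i, aeval f (F i) = 0) ∧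
      (∀ j, x j ≠ 0 → f j ≠ 0 ∧ ∀ P ∉ zeroInf k, P.ord (f j) = 0) ∧ (∀ j, x j = 0 → f j = 0) ∧
      B < pht k f ∧ ∀ H : MvPolynomial (Fin (n + 1)) k, val x H ≠ 0 → aeval f H ≠ 0 := by
  classical
  have hinf : Infinite k := inferInstance
  obtain ⟨hx1, hb⟩ := hx
  obtain ⟨i, i', hi, hi', hlt⟩ : ∃ i i', x i ≠ 0 ∧ x i' ≠ 0 ∧ b i' < b i := by
    obtain ⟨i, i', hi, hi', hb⟩ := hb
    rcases lt_or_gt_of_ne hb with h | h
    · exact ⟨i', i, hi', hi, h⟩
    · exact ⟨i, i', hi, hi', h⟩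
  have hwc : ∀ e v, val x (wc b v (F e)) = 0 := fun e v =>
    wc_of_orbit (fun t ht => (hx1 t ht).2.2 e) v
  obtain ⟨T, hTd⟩ : ∃ T : RatFunc k, T = RatFunc.X := ⟨_, rfl⟩
  have hTt : Transcendental k T := hTd ▸ RatFunc.transcendental_X
  have hT0 : T ≠ 0 := by rw [hTd]; exact RatFunc.X_ne_zero
  obtain ⟨m, hm⟩ : ∃ m : ℕ, m = B.toNat + 1 := ⟨_, rfl⟩
  have hm0 : 0 < m := by omega
  obtain ⟨f, hf⟩ : ∃ f : Fin (n + 1) → RatFunc k, f = fun j =>
    (T ^ m) ^ b j * algebraMap k (RatFunc k) (x j) := ⟨_, rfl⟩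
  have hfj : ∀ j, x j ≠ 0 → f j ≠ 0 := fun j hj => by
    rw [hf]
    exact mul_ne_zero (zpow_ne_zero _ (pow_ne_zero _ hT0)) ((map_ne_zero _).2 hj)
  refine ⟨f, ⟨i, hfj i hi⟩, fun e => ?_, fun j hj => ⟨hfj j hj, fun P hP => ?_⟩, fun j hj => ?_,
    ?_, fun H hH => ?_⟩
  · have h1 := val_orbit (k := k) (L := RatFunc k) (fun j => algebraMap k (RatFunc k) (x j)) b
      (t := T ^ m) (pow_ne_zero _ hT0) (F e) (fun v => by
        have h2 : val (fun j => algebraMap k (RatFunc k) (x j)) (wc b v (F e)) =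
            algebraMap k (RatFunc k) (val x (wc b v (F e))) := by
          unfold Pool.Agent.W602.GT.val
          exact (MvPolynomial.aeval_algebraMap_apply _ _ _)
        rw [h2, hwc, map_zero])
    rw [hf]
    exact h1
  · have hPT : P.ord T = 0 := by
      by_contra h
      apply hP
      unfold zeroInf
      rw [Set.Finite.mem_toFinset]
      rw [hTd] at h
      exact h
    rw [hf]
    change P.ord ((T ^ m) ^ b j * algebraMap k (RatFunc k) (x j)) = 0
    rw [P.ord_mul (zpow_ne_zero _ (pow_ne_zero _ hT0)) ((map_ne_zero _).2 hj), P.ord_const hj,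
      add_zero]
    have h1 : P.ord (T ^ m) = 0 := by rw [P.ord_pow, hPT, mul_zero]
    rcases Int.eq_nat_or_neg (b j) with ⟨a, ha | ha⟩
    · rw [ha, zpow_natCast, P.ord_pow, h1, mul_zero]
    · rw [ha, zpow_neg, zpow_natCast, P.ord_inv, P.ord_pow, h1, mul_zero, neg_zero]
  · rw [hf]
    simp only [hj, map_zero, mul_zero]
  · -- the height
    obtain ⟨d, hd, hd0⟩ : ∃ d : ℕ, (d : ℤ) = b i - b i' ∧ 0 < d := by
      refine ⟨(b i - b i').toNat, ?_, ?_⟩
      · exact Int.toNat_of_nonneg (by omega)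
      · omega
    obtain ⟨c, hc⟩ := IsAlgClosed.exists_pow_nat_eq (x i / x i') hm0
    have hc0 : c ≠ 0 := by
      rintro rfl
      rw [zero_pow hm0.ne'] at hc
      exact div_ne_zero hi hi' hc.symm
    have h1 : f i / f i' = (T ^ d * algebraMap k (RatFunc k) c) ^ m := by
      rw [hf]
      change (T ^ m) ^ b i * algebraMap k (RatFunc k) (x i) /
        ((T ^ m) ^ b i' * algebraMap k (RatFunc k) (x i')) = _
      rw [mul_div_mul_comm, ← zpow_sub₀ (pow_ne_zero _ hT0), ← map_div₀, ← hc, map_pow, mul_pow,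
        ← hd, zpow_natCast, ← pow_mul, ← pow_mul, mul_comm m d]
    have hu : T ^ d * algebraMap k (RatFunc k) c ≠ 0 :=
      mul_ne_zero (pow_ne_zero _ hT0) ((map_ne_zero _).2 hc0)
    have h2 : 1 ≤ hgt k (T ^ d * algebraMap k (RatFunc k) c) := by
      by_contra hcon
      obtain ⟨c', hc'⟩ := const_of_hgt (k := k) (f := T ^ d * algebraMap k (RatFunc k) c)
        (by omega)
      apply hTt.pow hd0
      have h3 : T ^ d = algebraMap k (RatFunc k) (c' / c) := by
        have hc1 : algebraMap k (RatFunc k) c ≠ 0 := (map_ne_zero _).2 hc0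
        rw [map_div₀, ← hc', mul_div_assoc, div_self hc1, mul_one]
      rw [h3]
      exact isAlgebraic_algebraMap _
    have h3 := Pool.Agent.W603.CX.hgt_le_pht (k := k) f (hfj i hi) (hfj i' hi')
    rw [h1, hgt_pow hu] at h3
    have h4 : (m : ℤ) * 1 ≤ (m : ℤ) * hgt k (T ^ d * algebraMap k (RatFunc k) c) :=
      mul_le_mul_of_nonneg_left h2 (by positivity)
    have h5 : B < m := by
      rw [hm]
      push_cast
      omega
    linarith
  · intro h0
    obtain ⟨M, R, hR1, hR2, -⟩ := orbit_poly (k := k) x (fun j => (m : ℤ) * b j) H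
    have h1 : R ≠ 0 := by
      rintro rfl
      have h2 := hR1 1 one_ne_zero
      simp only [one_zpow, one_mul, one_pow, Polynomial.eval_zero] at h2
      exact hH h2.symm
    have h2 : (fun j => (RatFunc.X : RatFunc k) ^ ((m : ℤ) * b j) *
        algebraMap k (RatFunc k) (x j)) = f := by
      rw [hf, hTd]
      funext j
      rw [zpow_mul, zpow_natCast]
    rw [h2] at hR2
    have h3 : val f H = 0 := h0
    rw [h3, mul_zero] at hR2
    exact h1 ((map_eq_zero_iff _ (RatFunc.algebraMap_injective k)).1 hR2)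

end Pool.Agent.X333.MC
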