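import Pool.Agent.TH710.NU.Div
import Pool.Agent.TH710.NU.Seq
import Pool.Agent.TH710.ND.Sp
import Pool.Agent.TH710.ND.Proj
import Pool.Agent.W602.GT.PsOrb

/-!
Nested sums of few high powers of monomials: the one-parameter group through a point over a field
with a subfield of small elements.
-/

set_option autoImplicit false

open MvPolynomial Pool.Agent.TH710.ND Pool.Agent.TH710.NU Pool.Agent.W602.GT

namespace Pool.Agent.X333.MC

variable {n : ℕ} {ι : Type}

/-- `G` is a nested sum of few high powers of monomials: `G = ∑ c_i g_i ^ e` with `s` summands,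
`(s - 1) ^ 2 ≤ e`, where the `g_i` are all monomials (with coefficients), or all sums of `k` terms
`c h ^ e'` with `(2 k - 1) ^ 2 ≤ e'`, and so on: `L` is the list of the pairs `(k, e')` of the
levels. -/
def MTower {F : Type} [Field F] (G : MvPolynomial (Fin (n + 1)) F) : Prop :=
  ∃ (s e : ℕ) (L : List (ℕ × ℕ)) (c : Fin s → F) (g : Fin s → MvPolynomial (Fin (n + 1)) F),
    0 < e ∧ (s - 1) ^ 2 ≤ e ∧ GoodL L ∧ (∀ i, GateL IsMono L (g i)) ∧ G = ∑ i, C (c i) * g i ^ e

theorem MTower.of_nested {F : Type} [Field F] {s N h : ℕ} (hN2 : (2 * s) ^ 2 ≤ N) (hN1 : 1 ≤ N)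
    {G : MvPolynomial (Fin (n + 1)) F} (hG : NestedIn IsMono s N h G) : MTower G := by
  obtain ⟨r, e, L, c, g, hr, he, -, hL, hg, hGe⟩ := hG
  refine ⟨r, e, L, c, g, by omega, ?_, fun ke hke => ?_, hg, hGe⟩
  · refine le_trans (Nat.pow_le_pow_left ?_ 2) (hN2.trans he)
    omega
  · obtain ⟨h1, h2, h3⟩ := hL ke hke
    refine ⟨by omega, le_trans (Nat.pow_le_pow_left ?_ 2) (hN2.trans h3)⟩
    omega

section lattice

variable {F K : Type} [Field F] [Field K] [Algebra F K] {m : ℕ}

/-- the lattice of the monomials with small values -/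
def lat (E : IntermediateField F K) (y : Fin m → K) (hy : ∀ j, y j ≠ 0) :
    Submodule ℤ (Fin m → ℤ) where
  carrier := {γ | ∏ j, y j ^ γ j ∈ E}
  add_mem' := by
    intro a b ha hb
    change ∏ j, y j ^ (a j + b j) ∈ E
    have h1 : ∏ j, y j ^ (a j + b j) = (∏ j, y j ^ a j) * ∏ j, y j ^ b j := by
      rw [← Finset.prod_mul_distrib]
      exact Finset.prod_congr rfl fun j _ => zpow_add₀ (hy j) _ _
    rw [h1]
    exact mul_mem ha hb
  zero_mem' := by
    change ∏ j, y j ^ (0 : ℤ) ∈ E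
    simp
  smul_mem' := by
    intro c a ha
    change ∏ j, y j ^ (c • a j) ∈ E
    have h1 : ∏ j, y j ^ (c • a j) = (∏ j, y j ^ a j) ^ c := by
      rw [← Finset.prod_zpow]
      refine Finset.prod_congr rfl fun j _ => ?_
      rw [smul_eq_mul, mul_comm, zpow_mul]
    rw [h1]
    exact zpow_mem ha c

/-- **Weights.** -/
theorem exists_weight {E : IntermediateField F K} (hroot : Root E) (y : Fin m → K)
    (hy : ∀ j, y j ≠ 0) {i : Fin m} (hi : y i ∉ E) :
    ∃ b : Fin m → ℤ, b i ≠ 0 ∧ ∀ γ : Fin m → ℤ, ∏ j, y j ^ γ j ∈ E → ∑ j, γ j * b j = 0 := by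
  classical
  have htf : Module.IsTorsionFree ℤ ((Fin m → ℤ) ⧸ lat E y hy) := by
    rw [Module.isTorsionFree_iff_smul_eq_zero]
    intro c q hq
    obtain ⟨γ, rfl⟩ := Submodule.Quotient.mk_surjective _ q
    by_cases hc : c = 0
    · exact Or.inl hc
    · refine Or.inr ?_
      rw [← Submodule.Quotient.mk_smul, Submodule.Quotient.mk_eq_zero] at hq
      rw [Submodule.Quotient.mk_eq_zero]
      have h1 : ∏ j, y j ^ (c • γ j) = (∏ j, y j ^ γ j) ^ c := by
        rw [← Finset.prod_zpow]
        refine Finset.prod_congr rfl fun j _ => ?_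
        rw [smul_eq_mul, mul_comm, zpow_mul]
      have h2 : (∏ j, y j ^ γ j) ^ c ∈ E := by
        rw [← h1]
        exact hq
      change ∏ j, y j ^ γ j ∈ E
      have h3 : (∏ j, y j ^ γ j) ^ c.natAbs ∈ E := by
        rcases Int.natAbs_eq c with h | h
        · rw [h, zpow_natCast] at h2
          exact h2
        · rw [h, zpow_neg, zpow_natCast] at h2
          have := inv_mem h2
          rwa [inv_inv] at this
      exact hroot _ _ (Int.natAbs_pos.2 hc) h3
  have hfree : Module.Free ℤ ((Fin m → ℤ) ⧸ lat E y hy) := inferInstance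
  have hne : (Submodule.Quotient.mk (Pi.single i (1 : ℤ)) : (Fin m → ℤ) ⧸ lat E y hy) ≠ 0 := by
    rw [Ne, Submodule.Quotient.mk_eq_zero]
    intro h
    apply hi
    have h1 : ∏ j, y j ^ (Pi.single i (1 : ℤ) : Fin m → ℤ) j ∈ E := h
    rw [Finset.prod_eq_single i] at h1
    · simpa using h1
    · intro j _ hj
      rw [Pi.single_eq_of_ne hj, zpow_zero]
    · intro h2
      exact absurd (Finset.mem_univ i) h2
  obtain ⟨f, hf⟩ := Module.Projective.exists_dual_ne_zero ℤ hne
  refine ⟨fun j => f (Submodule.Quotient.mk (Pi.single j (1 : ℤ))), hf, fun γ hγ => ?_⟩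
  have h1 : γ = ∑ j, γ j • (Pi.single j (1 : ℤ) : Fin m → ℤ) := by
    funext l
    rw [Finset.sum_apply, Finset.sum_eq_single l]
    · simp
    · intro j _ hj
      simp [Pi.single_eq_of_ne (Ne.symm hj)]
    · intro h2
      exact absurd (Finset.mem_univ l) h2
  have h2 : f (Submodule.Quotient.mk γ : (Fin m → ℤ) ⧸ lat E y hy) = 0 := by
    have : (Submodule.Quotient.mk γ : (Fin m → ℤ) ⧸ lat E y hy) = 0 := by
      rw [Submodule.Quotient.mk_eq_zero]
      exact hγ
    rw [this, map_zero]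
  have h3 : (Submodule.Quotient.mk γ : (Fin m → ℤ) ⧸ lat E y hy) =
      ∑ j, γ j • Submodule.Quotient.mk (Pi.single j (1 : ℤ) : Fin m → ℤ) := by
    have h4 := congrArg (Submodule.mkQ (lat E y hy)) h1
    rw [map_sum] at h4
    simp only [map_smul, Submodule.mkQ_apply] at h4
    exact h4
  rw [h3, map_sum] at h2
  rw [← h2]
  refine Finset.sum_congr rfl fun j _ => ?_
  rw [map_smul, smul_eq_mul]

end lattice

section orbit

variable {F K : Type} [Field F] [Field K] [Algebra F K] {E : IntermediateField F K}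
  {Dv : ℕ → K → Prop}

/-- **The orbit.** -/
theorem wc_of_dsys [Infinite K] (h : DSys E Dv) {Fs : ι → MvPolynomial (Fin (n + 1)) F}
    (hF : ∀ e, MTower (Fs e)) {y : Fin (n + 1) → K} (hmem : ∀ e, val y (Fs e) = 0)
    {b : Fin (n + 1) → ℤ}
    (hb : ∀ α β : Fin (n + 1) →₀ ℕ, ∏ j, y j ^ α j ≠ 0 → ∏ j, y j ^ β j ≠ 0 →
      (∏ j, y j ^ α j) / ∏ j, y j ^ β j ∈ E →
        ∑ j, (α j : ℤ) * b j = ∑ j, (β j : ℤ) * b j) (e : ι) (v : ℤ) :
    val y (wc b v (Fs e)) = 0 := by
  obtain ⟨M, R, hR1, -, hR3⟩ := orbit_poly (k := F) y b (Fs e)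
  refine hR3 (poly_zero fun t ht => ?_) v
  rw [hR1 t ht]
  have h1 : val (fun j => t ^ b j * y j) (Fs e) = 0 := by
    obtain ⟨s, d, L, c, g, hd0, hsd, hL, hg, hFe⟩ := hF e
    have hE : Env E IsMono y (fun j => t ^ b j * y j) := by
      refine ⟨?_, ?_⟩
      · rintro p ⟨α, a, rfl⟩ h
        rw [aeval_mono] at h ⊢
        rw [torus_mono y b ht, mul_left_comm, h, mul_zero]
      · rintro p q ⟨α, a, rfl⟩ ⟨β, c, rfl⟩ hp hq hW
        rw [aeval_mono] at hp hq
        rw [aeval_mono, aeval_mono] at hW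
        have hp1 := left_ne_zero_of_mul hp
        have hp2 := right_ne_zero_of_mul hp
        have hq1 := left_ne_zero_of_mul hq
        have hq2 := right_ne_zero_of_mul hq
        have h5 := hb α β hp2 hq2 (by
          have h6 : (∏ j, y j ^ α j) / ∏ j, y j ^ β j =
              (algebraMap F K a * ∏ j, y j ^ α j) / (algebraMap F K c * ∏ j, y j ^ β j) *
                algebraMap F K c * (algebraMap F K a)⁻¹ := by
            field_simp
          rw [h6]
          exact mul_mem (mul_mem hW (E.algebraMap_mem _)) (inv_mem (E.algebraMap_mem _)))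
        rw [aeval_mono, aeval_mono, aeval_mono, aeval_mono, torus_mono y b ht,
          torus_mono y b ht, h5]
        change algebraMap F K a * (t ^ (∑ j, (β j : ℤ) * b j) * ∏ j, y j ^ α j) *
          (algebraMap F K c * ∏ j, y j ^ β j) = algebraMap F K a * (∏ j, y j ^ α j) *
          (algebraMap F K c * (t ^ (∑ j, (β j : ℤ) * b j) * ∏ j, y j ^ β j))
        ring
    obtain ⟨ihz, ihp⟩ := gate_rel h hE L hL
    have h1 := pow_step h (x := fun j => t ^ b j * y j) hd0 (fun i => algebraMap F K (c i))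
      (fun i => E.algebraMap_mem _) g (by
        have h2 := hmem e
        unfold Pool.Agent.W602.GT.val at h2
        rw [hFe, aeval_sum_pow] at h2
        exact h2) (by rw [Fintype.card_fin]; exact hsd) (fun j hj => ihz (g j) (hg j) hj)
      (fun i j hi hj hl => ihp (g i) (g j) (hg i) (hg j) hi hj hl)
    unfold Pool.Agent.W602.GT.val
    rw [hFe, aeval_sum_pow]
    exact h1
  rw [h1, mul_zero]

/-- **A one-parameter group through a point which is not small.** -/
theorem orbit_of_dsys [Infinite K] (h : DSys E Dv) {Fs : ι → MvPolynomial (Fin (n + 1)) F}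
    (hF : ∀ e, MTower (Fs e)) (hFf : ∀ e, IsForm (Fs e)) {y : Fin (n + 1) → K}
    (hmem : ∀ e, val y (Fs e) = 0) {i i' : Fin (n + 1)} (hi : y i ≠ 0) (hi' : y i' ≠ 0)
    (hii : y i / y i' ∉ E) :
    ∃ b : Fin (n + 1) → ℤ, b i ≠ b i' ∧ ∀ e v, val y (wc b v (Fs e)) = 0 := by
  classical
  -- the normalised point
  let z : Fin (n + 1) → K := fun j => (y i')⁻¹ * y j
  have hz0 : ∀ j, z j ≠ 0 ↔ y j ≠ 0 := fun j =>
    ⟨fun h => right_ne_zero_of_mul h, fun h => mul_ne_zero (inv_ne_zero hi') h⟩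
  let z' : Fin (n + 1) → K := fun j => if y j = 0 then 1 else z j
  have hz'0 : ∀ j, z' j ≠ 0 := by
    intro j
    by_cases hj : y j = 0
    · simp only [z', if_pos hj]
      exact one_ne_zero
    · simp only [z', if_neg hj]
      exact (hz0 j).2 hj
  have hzi : z' i ∉ E := by
    simp only [z', if_neg hi, z]
    rwa [mul_comm, ← div_eq_mul_inv]
  obtain ⟨b, hbi, hb⟩ := exists_weight h.root z' hz'0 hzi
  have hbi' : b i' = 0 := by
    have h1 := hb (Pi.single i' 1) (by
      rw [Finset.prod_eq_single i']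
      · simp only [z', if_neg hi', z, Pi.single_eq_same, zpow_one]
        rw [inv_mul_cancel₀ hi']
        exact one_mem _
      · intro j _ hj
        rw [Pi.single_eq_of_ne hj, zpow_zero]
      · intro h2
        exact absurd (Finset.mem_univ _) h2)
    rw [Finset.sum_eq_single i'] at h1
    · simpa using h1
    · intro j _ hj
      rw [Pi.single_eq_of_ne hj, zero_mul]
    · intro h2
      exact absurd (Finset.mem_univ _) h2
  refine ⟨b, by rw [hbi']; exact hbi, fun e v => ?_⟩
  have hzmem : ∀ e, val z (Fs e) = 0 := by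
    intro e
    obtain ⟨d, hd⟩ := hFf e
    change val (fun j => (y i')⁻¹ * y j) (Fs e) = 0
    rw [val_smul hd, hmem, mul_zero]
  have h1 := wc_of_dsys h hF hzmem (b := b) (fun α β hα hβ hαβ => by
    have hsup : ∀ γ : Fin (n + 1) →₀ ℕ, ∏ j, z j ^ γ j ≠ 0 → ∀ j, y j = 0 → γ j = 0 := by
      intro γ hγ j hj
      by_contra hne
      apply hγ
      apply Finset.prod_eq_zero (Finset.mem_univ j)
      simp only [z, hj, mul_zero]
      exact zero_pow hne
    have hpr : ∀ γ : Fin (n + 1) →₀ ℕ, ∏ j, z j ^ γ j ≠ 0 →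
        ∏ j, z j ^ γ j = ∏ j, z' j ^ (γ j : ℤ) := by
      intro γ hγ
      refine Finset.prod_congr rfl fun j _ => ?_
      by_cases hj : y j = 0
      · rw [hsup γ hγ j hj]
        simp
      · simp only [z', if_neg hj, zpow_natCast]
    have h2 := hb (fun j => (α j : ℤ) - (β j : ℤ)) (by
      have h3 : ∏ j, z' j ^ ((α j : ℤ) - (β j : ℤ)) =
          (∏ j, z j ^ α j) / ∏ j, z j ^ β j := by
        rw [hpr α hα, hpr β hβ, ← Finset.prod_div_distrib]
        exact Finset.prod_congr rfl fun j _ => zpow_sub₀ (hz'0 j) _ _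
      rw [h3]
      exact hαβ)
    simp only [sub_mul, Finset.sum_sub_distrib] at h2
    exact sub_eq_zero.1 h2) e v
  obtain ⟨d, hd⟩ := wc_form (hFf e) b v
  have h2 : val z (wc b v (Fs e)) = (y i')⁻¹ ^ d * val y (wc b v (Fs e)) := val_smul hd _ _
  rw [h2] at h1
  exact (mul_eq_zero.1 h1).resolve_left (pow_ne_zero _ (inv_ne_zero hi'))

end orbit

end Pool.Agent.X333.MC
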