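import Pool.Agent.X333.MC.Rig
import Pool.Agent.TH710.NR.Fin
import Pool.Agent.W856.RG.ORB

/-!
Pointed maps to varieties given by nested sums of few high powers of monomials: finiteness.
-/

set_option autoImplicit false

open FF MvPolynomial Pool.Agent.TH710.ND Pool.Agent.W602.RG Pool.Agent.W603.LV
  Pool.Agent.W603.PV
open Pool.Agent.W602.GT (val val_smul val_mul IsForm wc wc_form wc_of_orbit VarPts PtsU SubVarU
  IsComponentU ConeU DiagCurve Acts specialise IsComponent SubVar GeneralType LogGeneralType OffU)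
open scoped LinearAlgebra.Projectivization

namespace Pool.Agent.X333.MC

variable {k : Type} [Field k] {n : ℕ} {ι : Type} {K : Type} [Field K] [Algebra k K]

/-- **A form which excludes the orbits.** -/
theorem good_form [IsAlgClosed k] [CharZero k] [Finite ι] {U : Set (Fin (n + 1))}
    {F : ι → MvPolynomial (Fin (n + 1)) k} (hFf : ∀ i, IsForm (F i))
    {w : ℕ} {y : Fin (n + 1) → K} (hy : SubVarU U F K w y)
    (hno : ∀ b : Fin (n + 1) → ℤ, (∀ e v, val y (wc b v (F e)) = 0) →
      ∀ i i', y i ≠ 0 → y i' ≠ 0 → b i = b i') :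
    ∃ G : MvPolynomial (Fin (n + 1)) k, IsForm G ∧ val y G ≠ 0 ∧
      ∀ x ∈ VarPts k y, val x G ≠ 0 → (∀ j, x j = 0 ↔ y j = 0) ∧
        ∀ b : Fin (n + 1) → ℤ, (∀ e v, val x (wc b v (F e)) = 0) →
          ∀ i i', x i ≠ 0 → x i' ≠ 0 → b i = b i' := by
  classical
  have := Fintype.ofFinite ι
  -- the finitely many forms which occur
  let T : ι → Finset (MvPolynomial (Fin (n + 1)) k) := fun e =>
    (F e).support.powerset.image fun s => ∑ α ∈ s, MvPolynomial.monomial α ((F e).coeff α)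
  have hT : ∀ e b v, wc b v (F e) ∈ T e := by
    intro e b v
    refine Finset.mem_image.2 ⟨(F e).support.filter fun α => ∑ j, (α j : ℤ) * b j = v, ?_, rfl⟩
    exact Finset.mem_powerset.2 (Finset.filter_subset _ _)
  let T1 : Finset (MvPolynomial (Fin (n + 1)) k) :=
    (Finset.univ.biUnion T ∪ Finset.univ.image (fun j => (X j : MvPolynomial (Fin (n + 1)) k))
      ).filter fun p => IsForm p ∧ val y p ≠ 0
  obtain ⟨G0, hG0⟩ : ∃ G0 : MvPolynomial (Fin (n + 1)) k, G0 = ∏ p ∈ T1, p := ⟨_, rfl⟩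
  have hval : ∀ {M : Type} [Field M] [Algebra k M] (z : Fin (n + 1) → M),
      val z G0 = ∏ p ∈ T1, val z p := by
    intro M _ _ z
    rw [hG0]
    unfold Pool.Agent.W602.GT.val
    rw [map_prod]
  have hG0y : val y G0 ≠ 0 := by
    rw [hval]
    exact Finset.prod_ne_zero_iff.2 fun p hp => (Finset.mem_filter.1 hp).2.2
  have hG0f : IsForm G0 := by
    rw [hG0]
    refine ⟨∑ p ∈ T1.attach, ((Finset.mem_filter.1 p.2).2.1).choose, ?_⟩
    rw [← Finset.prod_attach]
    exact IsHomogeneous.prod _ _ _ fun p _ => ((Finset.mem_filter.1 p.2).2.1).choose_spec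
  have hXv : ∀ {M : Type} [Field M] [Algebra k M] (z : Fin (n + 1) → M) (j : Fin (n + 1)),
      val z (X j : MvPolynomial (Fin (n + 1)) k) = z j := by
    intro M _ _ z j
    unfold Pool.Agent.W602.GT.val
    rw [aeval_X]
  refine ⟨G0, hG0f, hG0y, fun x hx hxG => ?_⟩
  rw [hval] at hxG
  have hxT := Finset.prod_ne_zero_iff.1 hxG
  have hsup : ∀ j, x j = 0 ↔ y j = 0 := by
    intro j
    constructor
    · intro h
      by_contra hj
      refine hxT (X j) (Finset.mem_filter.2 ⟨Finset.mem_union_right _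
        (Finset.mem_image_of_mem _ (Finset.mem_univ j)), ⟨1, isHomogeneous_X _ _⟩, ?_⟩) ?_
      · rw [hXv]
        exact hj
      · rw [hXv]
        exact h
    · intro h
      have h1 := hx.2 (X j) ⟨1, isHomogeneous_X _ _⟩ (by rw [hXv]; exact h)
      rwa [hXv] at h1
  refine ⟨hsup, fun b hb i i' hi hi' => hno b (fun e v => ?_) i i'
    (fun h => hi ((hsup i).2 h)) (fun h => hi' ((hsup i').2 h))⟩
  by_contra h0
  exact hxT _ (Finset.mem_filter.2 ⟨Finset.mem_union_left _
    (Finset.mem_biUnion.2 ⟨e, Finset.mem_univ _, hT e b v⟩), wc_form (hFf e) b v, h0⟩) (hb e v)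

section defs

variable {L : Type} [Field L] [Algebra k L]

/-- The morphisms to the part `x_j ≠ 0`, `j ∈ U`, of the closed subvariety with generic point `y`
from the smooth projective curve with function field `L`, without the finite set `S` of its points,
that map the point `c` to the point `x`. -/
def PointedVU (U : Set (Fin (n + 1))) (y : Fin (n + 1) → K) (S : Finset (Place k L))
    (c : Place k L) (x : Fin (n + 1) → k) : Set (ℙ L (Fin (n + 1) → L)) :=
  {φ | ∃ (f : Fin (n + 1) → L) (hf : f ≠ 0), IsMapVU (k := k) U y S f ∧ HasValue c x f ∧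
    φ = Projectivization.mk L f hf}

end defs

/-- The part `x_j ≠ 0`, `j ∈ U`, of the closed subvariety with generic point `y` is pseudo-
geometrically hyperbolic: outside a proper closed subset `G = 0`, for every pointed curve there are
only finitely many morphisms to it with a given value at the marked point. -/
def GeomHypU (k : Type) [Field k] [Algebra k K] (U : Set (Fin (n + 1)))
    (y : Fin (n + 1) → K) : Prop :=
  ∃ G : MvPolynomial (Fin (n + 1)) k, IsForm G ∧ val y G ≠ 0 ∧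
    ∀ (L : Type) [Field L] [Algebra k L] [IsFF k L] (S : Finset (Place k L)) (c : Place k L),
      c ∉ S → ∀ x ∈ PtsU U k y, val x G ≠ 0 → (PointedVU U y S c x).Finite

/-- The same for the open subsets of the projective line only. -/
def GeomHypRat (k : Type) [Field k] [Algebra k K] (U : Set (Fin (n + 1)))
    (y : Fin (n + 1) → K) : Prop :=
  ∃ G : MvPolynomial (Fin (n + 1)) k, IsForm G ∧ val y G ≠ 0 ∧
    ∀ (S : Finset (Place k (RatFunc k))) (c : Place k (RatFunc k)),
      c ∉ S → ∀ x ∈ PtsU U k y, val x G ≠ 0 → (PointedVU U y S c x).Finite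

/-- **Finiteness.** -/
theorem few_of_no [IsAlgClosed k] [CharZero k] [Finite ι] {U : Set (Fin (n + 1))}
    {F : ι → MvPolynomial (Fin (n + 1)) k} (hF : ∀ i, MTower (F i)) (hFf : ∀ i, IsForm (F i))
    {w : ℕ} {y : Fin (n + 1) → K} (hy : SubVarU U F K w y) (hcomp : IsComponentU U F y)
    (hno : NoActionU k U y) : GeomHypU k U y := by
  classical
  have hno' : ∀ b : Fin (n + 1) → ℤ, (∀ e v, val y (wc b v (F e)) = 0) →
      ∀ i i', y i ≠ 0 → y i' ≠ 0 → b i = b i' := fun b hb i i' hi hi' =>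
    hno b (acts_of_wc hy hcomp hb) i i' hi hi'
  obtain ⟨G1, hG1f, hG1, B, hB⟩ := genus_of_no hF hFf hy hcomp hno'
  obtain ⟨G2, hG2f, hG2, hG2x⟩ := good_form hFf hy hno'
  refine ⟨G1 * G2, ?_, ?_, fun L _ _ _ S c hcS x hxU hxG => ?_⟩
  · obtain ⟨a, ha⟩ := hG1f
    obtain ⟨b, hb⟩ := hG2f
    exact ⟨a + b, ha.mul hb⟩
  · rw [val_mul]
    exact mul_ne_zero hG1 hG2
  rw [val_mul] at hxG
  have hx := hxU.1
  have hx1 := left_ne_zero_of_mul hxG
  obtain ⟨hsup, hxno⟩ := hG2x x hx (right_ne_zero_of_mul hxG)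
  by_contra hfin
  have hinf : (PointedVU U y S c x).Infinite := hfin
  obtain ⟨j0, hj0⟩ := Function.ne_iff.1 hx.1
  have hj0 : x j0 ≠ 0 := hj0
  set M : Set (Fin (n + 1) → L) := {f | f j0 = 1 ∧ IsMapVU (k := k) U y S f ∧
    HasValue c x f} with hM
  have hMinf : M.Infinite := by
    intro hMfin
    obtain ⟨φ0, -⟩ := hinf.nonempty
    let g : (Fin (n + 1) → L) → ℙ L (Fin (n + 1) → L) := fun f =>
      if h : f ≠ 0 then Projectivization.mk L f h else φ0
    refine hinf ((hMfin.image g).subset ?_)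
    rintro φ ⟨f, hf, hmap, hval, rfl⟩
    have hfne : ∃ j, f j ≠ 0 := Function.ne_iff.1 hf
    have hfj0 := Pool.Agent.W273.RG.FNW.hv_ne hfne hval hj0
    have hc0 : (f j0)⁻¹ ≠ 0 := inv_ne_zero hfj0
    have hf' : (fun j => (f j0)⁻¹ * f j) ≠ 0 := by
      intro h0
      have := congrFun h0 j0
      simp only [Pi.zero_apply] at this
      exact (mul_ne_zero hc0 hfj0) this
    refine ⟨fun j => (f j0)⁻¹ * f j, ⟨inv_mul_cancel₀ hfj0, ⟨?_, ?_, ?_⟩,
      Pool.Agent.W273.RG.FNW.hv_scale hfne hval hc0⟩, ?_⟩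
    · exact ⟨j0, mul_ne_zero hc0 hfj0⟩
    · intro H hH hyH
      have h3 := hmap.2.1 H hH hyH
      obtain ⟨e, he⟩ := hH
      have h4 := val_smul (L := L) he (f j0)⁻¹ f
      unfold Pool.Agent.W602.GT.val at h4
      rw [h4, h3, mul_zero]
    · intro j hj
      obtain ⟨h3, h4⟩ := hmap.2.2 j hj
      refine ⟨mul_ne_zero hc0 h3, fun P hP => ?_⟩
      rw [pord_scale P hfne hc0, P.ord_mul hc0 h3, h4 P hP]
    · change (if h : (fun j => (f j0)⁻¹ * f j) ≠ 0 then
        Projectivization.mk L (fun j => (f j0)⁻¹ * f j) h else φ0) = _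
      rw [dif_pos hf', Projectivization.mk_eq_mk_iff']
      exact ⟨(f j0)⁻¹, by funext j; rfl⟩
  have hvalues : ∀ f ∈ M, ∀ j, f j = algebraMap k L (x j / x j0) ∨
      0 < c.ord (f j - algebraMap k L (x j / x j0)) := by
    rintro f ⟨hf0, hmap, hval⟩ j
    have hp := Pool.Agent.W273.RG.FNW.pord_zero hval hj0 hf0
    have hxj0 : algebraMap k L (x j0) ≠ 0 := (map_ne_zero _).2 hj0
    have e : algebraMap k L (x j0) * f j - algebraMap k L (x j) * f j0 =
        algebraMap k L (x j0) * (f j - algebraMap k L (x j / x j0)) := by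
      rw [hf0, map_div₀]
      field_simp
    rcases hval j0 j with h3 | h3
    · left
      rw [e] at h3
      exact sub_eq_zero.1 ((mul_eq_zero.1 h3).resolve_left hxj0)
    · by_cases h4 : f j - algebraMap k L (x j / x j0) = 0
      · left; exact sub_eq_zero.1 h4
      · right
        rw [e, c.ord_mul hxj0 h4, c.ord_const hj0, zero_add, hp] at h3
        exact h3
  have hxU' : ∀ f ∈ M, ∀ j, f j = 0 ↔ x j = 0 := by
    rintro f ⟨hf0, hmap, hval⟩ j
    constructor
    · intro hfj
      by_contra hxj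
      exact Pool.Agent.W273.RG.FNW.hv_ne hmap.1 hval hxj hfj
    · intro hxj
      have h1 := hmap.2.1 (X j) ⟨1, isHomogeneous_X _ _⟩ (by
        unfold Pool.Agent.W602.GT.val
        rw [aeval_X]
        exact (hsup j).1 hxj)
      rwa [aeval_X] at h1
  have hbound : ∀ f ∈ M, pht k f ≤ B * max (canDeg k L) 0 := by
    intro f hf
    have hfM := hf
    obtain ⟨hf0, hmap, hval⟩ := hf
    refine hB L S f hmap fun h0 => ?_
    have h1 : ∀ j, Ge c 1 (f j - algebraMap k L (x j / x j0)) := by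
      intro j
      rcases hvalues f hfM j with h | h
      · left; rw [h, sub_self]
      · right; omega
    have h2 : ∀ j, Ge c 0 (f j) := by
      intro j
      have h3 : f j = (f j - algebraMap k L (x j / x j0)) + algebraMap k L (x j / x j0) := by ring
      rw [h3]
      exact ((h1 j).mono (by norm_num)).add (Ge.const _)
    have h3 := red_mvaeval c h2 h1 G1
    rw [h0, zero_sub] at h3
    have h4 := h3.neg
    rw [neg_neg] at h4
    have h5 := Pool.Agent.W588.RG.ABW.const_zero c h4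
    apply hx1
    obtain ⟨d, hd⟩ := hG1f
    have h6 : x = fun j => x j0 * (x j / x j0) := by
      funext j
      field_simp
    rw [h6, val_smul hd]
    have h7 : val (fun j => x j / x j0) G1 = eval (fun j => x j / x j0) G1 := by
      unfold Pool.Agent.W602.GT.val
      rw [MvPolynomial.aeval_def, MvPolynomial.eval₂_eq', MvPolynomial.eval_eq']
      rfl
    rw [h7, h5, mul_zero]
  obtain ⟨b, i, i', hi, hi', hbi, hwc⟩ := orbit_of_infinite hF hFf c x j0 hj0 _ M hMinf
    (fun f hf => ⟨hf.1, fun i => hf.2.1.2.1 _ (hFf i) (hy.mem i), hxU' f hf, hvalues f hf,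
      hbound f hf⟩)
  exact hbi (hxno b hwc i i' hi hi')

/-- the forms which vanish at `y` -/
def vForms (k : Type) [Field k] [Algebra k K] (y : Fin (n + 1) → K) :
    {G : MvPolynomial (Fin (n + 1)) k // IsForm G ∧ val y G = 0} →
      MvPolynomial (Fin (n + 1)) k := fun G => G.1

theorem eval_val (x : Fin (n + 1) → k) (G : MvPolynomial (Fin (n + 1)) k) :
    eval x G = val x G := by
  unfold Pool.Agent.W602.GT.val
  rw [MvPolynomial.aeval_def, MvPolynomial.eval₂_eq', MvPolynomial.eval_eq']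
  rfl

theorem pts_vForms {U : Set (Fin (n + 1))} {y : Fin (n + 1) → K} {x : Fin (n + 1) → k} :
    x ∈ Pool.Agent.W603.CX.Pts U (vForms k y) ↔ x ∈ PtsU U k y := by
  constructor
  · rintro ⟨h1, h2, h3⟩
    refine ⟨⟨h1, fun G hG hGy => ?_⟩, h2⟩
    have h4 := h3 ⟨G, hG, hGy⟩
    rwa [eval_val] at h4
  · rintro ⟨⟨h1, h2⟩, h3⟩
    refine ⟨h1, h3, fun G => ?_⟩
    rw [eval_val]
    exact h2 G.1 G.2.1 G.2.2

/-- **Actions give infinitely many pointed maps.** -/
theorem no_of_rat [IsAlgClosed k] [CharZero k] {U : Set (Fin (n + 1))}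
    {y : Fin (n + 1) → K} (hyU : ∀ j ∈ U, y j ≠ 0)
    (h : GeomHypRat k U y) : NoActionU k U y := by
  classical
  have hinf : Infinite k := inferInstance
  obtain ⟨G, hG, hGy, hfin⟩ := h
  intro b hb i i' hi hi'
  by_contra hbi
  obtain ⟨x, hx1, hx2⟩ := specialise y (G * (MvPolynomial.X i * MvPolynomial.X i') *
    ∏ j ∈ Finset.univ.filter (fun j => j ∈ U), MvPolynomial.X j) (by
      rw [map_mul, map_mul, map_mul, map_prod]
      simp only [MvPolynomial.aeval_X]
      exact mul_ne_zero (mul_ne_zero hGy (mul_ne_zero hi hi'))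
        (Finset.prod_ne_zero_iff.2 fun j hj => hyU j (Finset.mem_filter.1 hj).2))
  rw [map_mul, map_mul, map_mul, map_prod] at hx1
  simp only [MvPolynomial.aeval_X] at hx1
  have h1 := left_ne_zero_of_mul (left_ne_zero_of_mul hx1)
  have h2 := right_ne_zero_of_mul (left_ne_zero_of_mul hx1)
  have h3 := right_ne_zero_of_mul hx1
  have hxP : x ∈ PtsU U k y := ⟨⟨fun h0 => left_ne_zero_of_mul h2 (congrFun h0 i),
    fun G _ hG => hx2 G hG⟩,
    fun j hj => Finset.prod_ne_zero_iff.1 h3 j (Finset.mem_filter.2 ⟨Finset.mem_univ _, hj⟩)⟩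
  obtain ⟨S, c, hc, hinf'⟩ := Pool.Agent.W856.RG.Orb.main k n _ U (vForms k y) x b
    (fun t ht => pts_vForms.2 (by
      have h4 := hb t ht x hxP
      have h5 : (fun j => x j * t ^ b j) = fun j => t ^ b j * x j := by
        funext j
        ring
      rw [h5]
      exact h4)) ⟨i, i', left_ne_zero_of_mul h2, right_ne_zero_of_mul h2, hbi⟩
  refine hinf' ((hfin S c hc x hxP h1).subset ?_)
  rintro φ ⟨f, hf, ⟨h4, h5, h6⟩, h7, rfl⟩
  exact ⟨f, hf, ⟨h4, fun G hG hGy => h5 ⟨G, hG, hGy⟩, h6⟩, h7, rfl⟩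

/-- **The equivalences.** -/
theorem pointed_monos [IsAlgClosed k] [CharZero k] [Finite ι] {U : Set (Fin (n + 1))}
    {F : ι → MvPolynomial (Fin (n + 1)) k} (hF : ∀ i, MTower (F i)) (hFf : ∀ i, IsForm (F i))
    {w : ℕ} {y : Fin (n + 1) → K} (hy : SubVarU U F K w y) (hcomp : IsComponentU U F y) :
    [GeomHypU k U y, GeomHypRat k U y, NoActionU k U y, GenusBoundU (k := k) U y].TFAE := by
  have h1 := comp_monos hF hFf hy hcomp
  tfae_have 1 → 2 := fun ⟨G, h1, h2, h3⟩ => ⟨G, h1, h2, fun S c => h3 (RatFunc k) S c⟩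
  tfae_have 2 → 3 := no_of_rat hy.unit
  tfae_have 3 → 1 := few_of_no hF hFf hy hcomp
  tfae_have 3 ↔ 4 := h1.out 5 0
  tfae_finish

end Pool.Agent.X333.MC
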