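import Pool.Agent.X333.MC.Bound
import Pool.Agent.TH710.NR.Rig

/-!
Pointed maps to varieties given by nested sums of few high powers of monomials: a nonconstant
family of pointed maps gives a one-parameter group.
-/

set_option autoImplicit false

open FF MvPolynomial Pool.Agent.TH710.ND Pool.Agent.W602.RG Pool.Agent.W603.LV
  Pool.Agent.W603.PV Pool.Agent.W588.RG.ABW Pool.Agent.TH710.NR
open Pool.Agent.W602.GT (val val_smul val_mul IsForm wc orbit_poly poly_zero wc_form)

namespace Pool.Agent.X333.MC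

section family

variable {k L Ω E : Type} [Field k] [Field L] [Field Ω] [Field E] [Algebra k L]
    [Algebra k Ω] [Algebra k E] [Algebra L E] [Algebra Ω E] {n : ℕ} {ι : Type}

/-- the elements killed by a derivation -/
def kerD (D : Derivation L E E) (hDk : ∀ a : k, D (algebraMap k E a) = 0) :
    IntermediateField k E where
  carrier := {z | D z = 0}
  mul_mem' := by
    intro a b ha hb
    have ha' : D a = 0 := ha
    have hb' : D b = 0 := hb
    change D (a * b) = 0
    rw [D.leibniz, ha', hb']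
    simp
  one_mem' := D.map_one_eq_zero
  add_mem' := by
    intro a b ha hb
    have ha' : D a = 0 := ha
    have hb' : D b = 0 := hb
    change D (a + b) = 0
    rw [map_add, ha', hb', add_zero]
  zero_mem' := map_zero D
  algebraMap_mem' := hDk
  inv_mem' := by
    intro a ha
    have ha' : D a = 0 := ha
    change D a⁻¹ = 0
    by_cases h0 : a = 0
    · rw [h0, inv_zero, map_zero]
    · exact D_inv_zero D h0 ha'

theorem mem_kerD {D : Derivation L E E} {hDk : ∀ a : k, D (algebraMap k E a) = 0} {z : E} :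
    z ∈ kerD D hDk ↔ D z = 0 := Iff.rfl

theorem root_kerD [CharZero E] {D : Derivation L E E}
    (hDk : ∀ a : k, D (algebraMap k E a) = 0) : Root (kerD D hDk) := by
  intro z N hN hz
  rw [mem_kerD] at hz ⊢
  by_cases h0 : z = 0
  · rw [h0, map_zero]
  · exact root_zero h0 hN hz

/-- **A one-parameter group.** -/
theorem orbit_of_family [IsAlgClosed k] [CharZero k] [IsFF k L] [IsAlgClosed Ω] [CharZero Ω]
    (hBC : BC k L Ω E) {F : ι → MvPolynomial (Fin (n + 1)) k}
    (hF : ∀ i, MTower (F i)) (hFh : ∀ i, IsForm (F i)) (x : Fin (n + 1) → k)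
    (f : Fin (n + 1) → E) (hz : ∀ j, f j = 0 ↔ x j = 0)
    (j0 : Fin (n + 1)) (hj0 : x j0 ≠ 0) (hfj0 : f j0 = 1) (hsum : ∀ i, aeval f (F i) = 0)
    (P : Place Ω E) (hP : ∃ l : L, P.ord (algebraMap L E l) ≠ 0)
    (hPx : ∀ j, f j = algebraMap k E (x j / x j0) ∨
      0 < P.ord (f j - algebraMap k E (x j / x j0)))
    (P1 : Place Ω E) (hP1 : ∃ l : L, P1.ord (algebraMap L E l) ≠ 0) (i1 : Fin (n + 1)) (θ : Ω)
    (hθ : Transcendental k θ)
    (hPθ : f i1 = algebraMap Ω E θ ∨ 0 < P1.ord (f i1 - algebraMap Ω E θ)) :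
    ∃ b : Fin (n + 1) → ℤ, b i1 ≠ b j0 ∧ x i1 ≠ 0 ∧ ∀ i v, val x (wc b v (F i)) = 0 := by
  classical
  have hkL : IsScalarTower k L E := hBC.towerL
  have hkΩ : IsScalarTower k Ω E := hBC.towerO
  have hcL : CharZero L := charZero_of_injective_algebraMap (algebraMap k L).injective
  have hcE : CharZero E := charZero_of_injective_algebraMap (algebraMap k E).injective
  have hFF : IsFF Ω E := Pool.Agent.W215.RG.ISF.main k L Ω E hBC
  obtain ⟨D0, hD0⟩ := Pool.Agent.W160.RG.DER.main k Ω θ hθ
  obtain ⟨D, hD⟩ := Pool.Agent.W797.RG.main k L Ω E hBC D0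
  have hregC : ∀ P : Place Ω E, (∃ l : L, P.ord (algebraMap L E l) ≠ 0) → Reg0 D P :=
    Pool.Agent.W215.RG.RGC.main k L Ω E hBC D D0 hD
  have hreg : ∀ P : Place Ω E, Reg0 D P ∨ Mov D P := by
    intro P
    by_cases h : ∃ l : L, P.ord (algebraMap L E l) ≠ 0
    · exact Or.inl (hregC P h)
    · push Not at h
      exact Pool.Agent.W440.RG.RGM.main k L Ω E hBC D D0 hD P h
  have hDk : ∀ a : k, D (algebraMap k E a) = 0 := by
    intro a
    rw [IsScalarTower.algebraMap_apply k L E, D.map_algebraMap]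
  -- the point and its residues
  have hPx' : ∀ j, Ge P 1 (f j - algebraMap k E (x j / x j0)) := by
    intro j
    rcases hPx j with h | h
    · left; rw [h, sub_self]
    · right; omega
  have hPx'' : ∀ j, Ge P 1 (f j - algebraMap Ω E (algebraMap k Ω (x j / x j0))) := by
    intro j
    rw [← IsScalarTower.algebraMap_apply k Ω E]
    exact hPx' j
  have hf0 : ∀ j, Ge P 0 (f j) := fun j => cong_ge P (hPx' j) (ge_const_k P _)
  have hred : ∀ G : MvPolynomial (Fin (n + 1)) k,
      Ge P 1 (aeval f G - algebraMap k E (val (fun j => x j / x j0) G)) := by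
    intro G
    have h1 := red_mvaeval P hf0 hPx'' (MvPolynomial.map (algebraMap k Ω) G)
    rw [MvPolynomial.aeval_map_algebraMap] at h1
    have h2 : eval (fun j => algebraMap k Ω (x j / x j0)) (MvPolynomial.map (algebraMap k Ω) G) =
        algebraMap k Ω (val (fun j => x j / x j0) G) := by
      unfold Pool.Agent.W602.GT.val
      rw [MvPolynomial.eval_map, ← MvPolynomial.aeval_def]
      have h3 := MvPolynomial.aeval_algebraMap_apply (A := k) (B := Ω)
        (fun j => x j / x j0) G
      exact h3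
    rw [h2, ← IsScalarTower.algebraMap_apply k Ω E] at h1
    exact h1
  -- the derivative
  have hDi1 : D (f i1) ≠ 0 := by
    intro h1
    rcases hPθ with h | h
    · rw [h, hD] at h1
      exact hD0 (by simpa using h1)
    · have h2 : D (f i1 - algebraMap Ω E θ) = - algebraMap Ω E (D0 θ) := by
        rw [map_sub, h1, hD, zero_sub]
      have h3 : algebraMap Ω E (D0 θ) ≠ 0 := (map_ne_zero _).2 hD0
      have h4 := hregC P1 hP1 (f i1 - algebraMap Ω E θ) (by rw [h2]; exact neg_ne_zero.2 h3)
      rw [h2, P1.ord_neg, P1.ord_const hD0] at h4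
      omega
  have hfi1 : f i1 ≠ 0 := by
    intro h
    rw [h, map_zero] at hDi1
    exact hDi1 rfl
  have hxi1 : x i1 ≠ 0 := fun h => hfi1 ((hz i1).2 h)
  -- the weights
  let y' : Fin (n + 1) → E := fun j => if f j = 0 then 1 else f j
  have hy'0 : ∀ j, y' j ≠ 0 := by
    intro j
    by_cases hj : f j = 0
    · simp only [y', if_pos hj]
      exact one_ne_zero
    · simp only [y', if_neg hj]
      exact hj
  have hy'1 : y' i1 ∉ kerD D hDk := by
    simp only [y', if_neg hfi1]
    exact hDi1
  obtain ⟨b, hbi, hb⟩ := exists_weight (root_kerD hDk) y' hy'0 hy'1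
  have hbj0 : b j0 = 0 := by
    have h1 := hb (Pi.single j0 1) (by
      rw [Finset.prod_eq_single j0]
      · simp only [y', hfj0, if_neg one_ne_zero, Pi.single_eq_same, zpow_one]
        exact one_mem _
      · intro j _ hj
        rw [Pi.single_eq_of_ne hj, zpow_zero]
      · intro h2
        exact absurd (Finset.mem_univ _) h2)
    rw [Finset.sum_eq_single j0] at h1
    · simpa using h1
    · intro j _ hj
      rw [Pi.single_eq_of_ne hj, zero_mul]
    · intro h2
      exact absurd (Finset.mem_univ _) h2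
  -- related monomials have the same weight
  have hrel : ∀ α β : Fin (n + 1) →₀ ℕ, ∏ j, f j ^ α j ≠ 0 → ∏ j, f j ^ β j ≠ 0 →
      (∏ j, f j ^ α j) / ∏ j, f j ^ β j ∈ Sm Ω D →
        ∑ j, (α j : ℤ) * b j = ∑ j, (β j : ℤ) * b j := by
    intro α β hα hβ hαβ
    have hsup : ∀ γ : Fin (n + 1) →₀ ℕ, ∏ j, f j ^ γ j ≠ 0 → ∀ j, f j = 0 → γ j = 0 := by
      intro γ hγ j hj
      by_contra hne
      apply hγ
      apply Finset.prod_eq_zero (Finset.mem_univ j)
      rw [hj]
      exact zero_pow hne
    have hpr : ∀ γ : Fin (n + 1) →₀ ℕ, ∏ j, f j ^ γ j ≠ 0 →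
        ∏ j, f j ^ γ j = ∏ j, y' j ^ (γ j : ℤ) := by
      intro γ hγ
      refine Finset.prod_congr rfl fun j _ => ?_
      by_cases hj : f j = 0
      · rw [hsup γ hγ j hj]
        simp
      · simp only [y', if_neg hj, zpow_natCast]
    have hval : ∀ γ : Fin (n + 1) →₀ ℕ, ∏ j, f j ^ γ j ≠ 0 →
        (∏ j, (x j / x j0) ^ γ j ≠ 0) ∧
          Ge P 1 (∏ j, f j ^ γ j - algebraMap k E (∏ j, (x j / x j0) ^ γ j)) := by
      intro γ hγ
      constructor
      · refine Finset.prod_ne_zero_iff.2 fun j _ => ?_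
        by_cases hj : f j = 0
        · rw [hsup γ hγ j hj, pow_zero]
          exact one_ne_zero
        · exact pow_ne_zero _ (div_ne_zero (fun h => hj ((hz j).2 h)) hj0)
      · have h1 := hred (MvPolynomial.monomial γ 1)
        have h2 : aeval f (MvPolynomial.monomial γ (1 : k)) = ∏ j, f j ^ γ j := by
          rw [aeval_mono, map_one, one_mul]
        have h3 : val (fun j => x j / x j0) (MvPolynomial.monomial γ (1 : k)) =
            ∏ j, (x j / x j0) ^ γ j := by
          unfold Pool.Agent.W602.GT.val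
          rw [aeval_mono, map_one, one_mul]
        rwa [h2, h3] at h1
    obtain ⟨ha, hua⟩ := hval α hα
    obtain ⟨hb', hub⟩ := hval β hβ
    have hkey := key D D0 hD P (hregC P hP) ha hb' hua hub one_pos (by
      rcases hαβ with h | ⟨ω, ε, hω, hε, hDε, h⟩
      · exact absurd h (div_ne_zero hα hβ)
      · refine ⟨ω, ε, hω, hε, hDε, ?_⟩
        rw [mul_one, div_eq_iff hβ] at h
        rw [pow_one, pow_one, h])
    have hD1 : D ((∏ j, f j ^ α j) / ∏ j, f j ^ β j) = 0 := by
      rw [div_eq_mul_inv, D.leibniz, D.leibniz_inv]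
      simp only [smul_eq_mul]
      field_simp
      linear_combination hkey
    have h2 := hb (fun j => (α j : ℤ) - (β j : ℤ)) (by
      have h3 : ∏ j, y' j ^ ((α j : ℤ) - (β j : ℤ)) =
          (∏ j, f j ^ α j) / ∏ j, f j ^ β j := by
        rw [hpr α hα, hpr β hβ, ← Finset.prod_div_distrib]
        exact Finset.prod_congr rfl fun j _ => zpow_sub₀ (hy'0 j) _ _
      rw [h3]
      exact hD1)
    simp only [sub_mul, Finset.sum_sub_distrib] at h2
    exact sub_eq_zero.1 h2
  -- the orbit over the large field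
  have hsys : MSys k (Sm Ω D) (DvM Ω D) := msys hreg
  have hinf : Infinite E := inferInstance
  have hwcE : ∀ i v, val f (wc b v (F i)) = 0 := by
    intro i v
    obtain ⟨M, R, hR1, -, hR3⟩ := orbit_poly (k := k) f b (F i)
    refine hR3 (poly_zero fun t ht => ?_) v
    rw [hR1 t ht]
    have h1 : val (fun j => t ^ b j * f j) (F i) = 0 := by
      obtain ⟨s, d, Ls, c, g, hd0, hsd, hL, hg, hFe⟩ := hF i
      have hE : MEnv (F := k) (K := E) (M := E) (Sm Ω D) IsMono f
          (fun j => t ^ b j * f j) := by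
        refine ⟨?_, ?_⟩
        · rintro p ⟨α, a, rfl⟩ h
          rw [aeval_mono] at h ⊢
          rw [torus_mono f b ht, mul_left_comm, h, mul_zero]
        · rintro p q ⟨α, a, rfl⟩ ⟨β, c, rfl⟩ hp hq hW
          rw [aeval_mono] at hp hq
          rw [aeval_mono, aeval_mono] at hW
          have hp1 := left_ne_zero_of_mul hp
          have hp2 := right_ne_zero_of_mul hp
          have hq1 := left_ne_zero_of_mul hq
          have hq2 := right_ne_zero_of_mul hq
          have h5 := hrel α β hp2 hq2 (by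
            have h6 : (∏ j, f j ^ α j) / ∏ j, f j ^ β j =
                (algebraMap k E a * ∏ j, f j ^ α j) / (algebraMap k E c * ∏ j, f j ^ β j) *
                  algebraMap k E c * (algebraMap k E a)⁻¹ := by
              field_simp
            rw [h6]
            exact hsys.mul _ _ (hsys.mul _ _ hW (hsys.cst _)) (hsys.inv _ (hsys.cst _)))
          rw [aeval_mono, aeval_mono, aeval_mono, aeval_mono, torus_mono f b ht,
            torus_mono f b ht, h5]
          change algebraMap k E a * (t ^ (∑ j, (β j : ℤ) * b j) * ∏ j, f j ^ α j) *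
            (algebraMap k E c * ∏ j, f j ^ β j) = algebraMap k E a * (∏ j, f j ^ α j) *
            (algebraMap k E c * (t ^ (∑ j, (β j : ℤ) * b j) * ∏ j, f j ^ β j))
          ring
      unfold Pool.Agent.W602.GT.val
      rw [hFe]
      refine Pool.Agent.TH710.NR.eq_step hsys hE hL hd0 hsd c g hg ?_
      rw [← hFe]
      exact hsum i
    rw [h1, mul_zero]
  -- reduction
  refine ⟨b, by rw [hbj0]; exact hbi, hxi1, fun i v => ?_⟩
  have h1 := hred (wc b v (F i))
  have h2 := hwcE i v
  unfold Pool.Agent.W602.GT.val at h2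
  rw [h2, zero_sub] at h1
  have h3 := h1.neg
  rw [neg_neg] at h3
  have h4 := const_zero_k P h3
  obtain ⟨d, hd⟩ := wc_form (hFh i) b v
  have h5 : x = fun j => x j0 * (x j / x j0) := by
    funext j
    field_simp
  rw [h5, val_smul hd, h4, mul_zero]

end family

section infinite

variable {k L : Type} [Field k] [Field L] [Algebra k L] {n : ℕ} {ι : Type}

/-- **Rigidity.** -/
theorem orbit_of_infinite [IsAlgClosed k] [CharZero k] [IsFF k L]
    {F : ι → MvPolynomial (Fin (n + 1)) k} (hF : ∀ i, MTower (F i))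
    (hFh : ∀ i, IsForm (F i)) (c : Place k L) (x : Fin (n + 1) → k)
    (j0 : Fin (n + 1)) (hj0 : x j0 ≠ 0) (B : ℤ) (M : Set (Fin (n + 1) → L)) (hinf : M.Infinite)
    (hM : ∀ f ∈ M, f j0 = 1 ∧ (∀ i, aeval f (F i) = 0) ∧
      (∀ j, f j = 0 ↔ x j = 0) ∧
      (∀ j, f j = algebraMap k L (x j / x j0) ∨
        0 < c.ord (f j - algebraMap k L (x j / x j0))) ∧ pht k f ≤ B) :
    ∃ (b : Fin (n + 1) → ℤ) (i i' : Fin (n + 1)), x i ≠ 0 ∧ x i' ≠ 0 ∧ b i ≠ b i' ∧
      ∀ e v, val x (wc b v (F e)) = 0 := by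
  classical
  have hhgt : ∀ f ∈ M, ∀ j, hgt k (f j) ≤ B := by
    intro f hf j
    obtain ⟨h1, h2, h3, h4, h5⟩ := hM f hf
    by_cases h0 : f j = 0
    · have h6 : pht k f ≤ B := h5
      have h7 : hgt k (f j) = 0 := by
        rw [h0]
        have := hgt_algebraic (k := k) (K := L) (f := 0) isAlgebraic_zero
        exact this
      have h8 : 0 ≤ pht k f := by
        have h9 := Pool.Agent.W603.CX.hgt_le_pht (k := k) f (j := j0) (l := j0)
          (by rw [h1]; exact one_ne_zero) (by rw [h1]; exact one_ne_zero)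
        exact (hgt_nonneg (k := k) _).trans h9
      omega
    · have h6 := Pool.Agent.W603.CX.hgt_le_pht (k := k) f (j := j) (l := j0) h0
        (by rw [h1]; exact one_ne_zero)
      rw [h1, div_one] at h6
      exact h6.trans h5
  -- a coordinate with infinitely many values
  obtain ⟨i1, hi1⟩ : ∃ i1, ((fun f : Fin (n + 1) → L => f i1) '' M).Infinite := by
    by_contra hcon
    push Not at hcon
    apply hinf
    apply (Set.Finite.pi' (t := fun j : Fin (n + 1) => (fun f : Fin (n + 1) → L => f j) '' M)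
      (fun j => hcon j)).subset
    intro f hf j
    exact ⟨f, hf, rfl⟩
  obtain ⟨p, u, θ, hu, hθ, hval⟩ := Pool.Agent.W764.RG.Seq.main k L B _ hi1 (by
    rintro _ ⟨f, hf, rfl⟩
    exact hhgt f hf i1)
  choose g hgM hgu using hu
  have hg1 : ∀ m, g m j0 = 1 := fun m => (hM _ (hgM m)).1
  -- homogeneous coordinates in a finite dimensional space
  obtain ⟨V, hV, hVf⟩ := Pool.Agent.W369.RG.RIE.main k L n B
  have hφ : ∀ m, ∃ φ : L, φ ≠ 0 ∧ ∀ j, φ * g m j ∈ V := fun m =>
    hVf (g m) ⟨j0, by rw [hg1]; exact one_ne_zero⟩ (hM _ (hgM m)).2.2.2.2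
  choose φ hφ0 hφV using hφ
  have hφE : Om.mk φ ∈ EE k L := by
    apply Pool.Agent.W61.RG.GSP.main k L V hV
    intro m
    have := hφV m j0
    rwa [hg1, mul_one] at this
  have hφne : Om.mk φ ≠ 0 := Om.mk_ne_zero hφ0
  have hgE : ∀ j, Om.mk (fun m => g m j) ∈ EE k L := by
    intro j
    have h1 : Om.mk (fun m => φ m * g m j) ∈ EE k L :=
      Pool.Agent.W61.RG.GSP.main k L V hV _ fun m => hφV m j
    have h2 : Om.mk (fun m => g m j) = Om.mk (fun m => φ m * g m j) / Om.mk φ := by
      rw [← Om.mk_mul, mul_div_cancel_left₀ _ hφne]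
    rw [h2]
    exact div_mem h1 hφE
  let fE : Fin (n + 1) → EE k L := fun j => ⟨Om.mk fun m => g m j, hgE j⟩
  have hfE : ∀ j, (fE j : Om L) = Om.mk fun m => g m j := fun j => rfl
  -- the fields
  have hBC : BC k L (Om k) (EE k L) := Pool.Agent.W736.RG.main k L
  have hAC : IsAlgClosed (Om k) := Pool.Agent.W917.RG.GAC.main k
  have hCZ : CharZero (Om k) :=
    charZero_of_injective_algebraMap (algebraMap k (Om k)).injective
  -- the places
  obtain ⟨P, hP, hPv⟩ := Pool.Agent.W374.RG.GPL.main k L c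
  obtain ⟨P1, hP1, hP1v⟩ := Pool.Agent.W374.RG.GPL.main k L p
  have hz : ∀ j, fE j = 0 ↔ x j = 0 := by
    intro j
    constructor
    · intro h
      by_contra hj
      have h1 : Om.mk (fun m => g m j) = 0 := by rw [← hfE j, h]; rfl
      exact Om.mk_ne_zero (fun m h => hj (((hM _ (hgM m)).2.2.1 j).1 h)) h1
    · intro h
      apply Subtype.ext
      rw [hfE]
      change Om.mk (fun m => g m j) = Om.mk fun _ => 0
      congr 1
      funext m
      exact ((hM _ (hgM m)).2.2.1 j).2 h
  obtain ⟨b, hb, hxi, hwc⟩ := orbit_of_family (L := L) (Ω := Om k) hBC hF hFh x fE hz j0 hj0 (by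
      apply Subtype.ext
      rw [hfE]
      change _ = Om.mk fun _ => (1 : L)
      congr 1
      funext m
      exact hg1 m) (fun i => zero_coe g fE hfE (F i) fun m => (hM _ (hgM m)).2.1 i) P hP (by
      intro j
      rw [← sub_eq_zero]
      refine hPv _ (fun m => g m j - algebraMap k L (x j / x j0)) ?_ fun m => ?_
      · change Om.mk (fun m => g m j) - cst L (algebraMap k L (x j / x j0)) = _
        rw [cst_apply, Om.mk_sub]
      · change g m j - algebraMap k L (x j / x j0) = 0 ∨
          0 < c.ord (g m j - algebraMap k L (x j / x j0))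
        rw [sub_eq_zero]
        exact (hM _ (hgM m)).2.2.2.1 j) P1 hP1 i1
    (Om.mk θ) (Pool.Agent.W32.RG.GTR.main k θ hθ) (by
      rw [← sub_eq_zero]
      refine hP1v _ (fun m => g m i1 - algebraMap k L (θ m)) ?_ fun m => ?_
      · change Om.mk (fun m => g m i1) - mapOm k L (Om.mk θ) = _
        rw [mapOm_mk, Om.mk_sub]
      · change g m i1 - algebraMap k L (θ m) = 0 ∨ 0 < p.ord (g m i1 - algebraMap k L (θ m))
        have h4 : g m i1 = u m := hgu m
        rw [h4, sub_eq_zero]
        exact hval m)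
  exact ⟨b, i1, j0, hxi, hj0, hb, hwc⟩

end infinite

end Pool.Agent.X333.MC
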